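import Pool.Agent.H31.DD.Defs

/-!
# DD Arith: `w(m P) = w(m) P + m`, expansion of `FF`

* `wf_mul_prime`: for a prime `P` not dividing `m ≥ 1`: `primeFactors (m P) = primeFactors m ∪ {P}`,
  the factor `P` contributes `m`, every other `p` contributes `P (m / p^a)`.
* `FF_expand`: for `z < P`: a prime `p ≤ z` divides `m P` iff it divides `m`; `p ∣ m` excludes
  `p ∣ w(m P)` (`Pool.Agent.H97.WIter.wf_coprime`), so the product over `p ∣ m P w(m P)` is the
  product over `p ∣ m` times the product over the `p ∤ m` with `p ∣ w(m) P + m`; expand the latter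
  (`Finset.prod_one_add`), a set `S` of primes divides termwise iff its product divides.
-/

set_option autoImplicit false

namespace Pool.Agent.H31.DD

open Finset
open Pool.Agent.H97.WIter (wf)

theorem wf_mul_prime (m P : ℕ) (hm : 1 ≤ m) (hP : P.Prime) (h : ¬ P ∣ m) :
    wf (m * P) = wf m * P + m := by
  have hm0 : m ≠ 0 := by omega
  have hP0 : P ≠ 0 := hP.ne_zero
  have hPm : P ∉ m.primeFactors := fun hh => h (Nat.dvd_of_mem_primeFactors hh)
  unfold Pool.Agent.H97.WIter.wf
  rw [Nat.primeFactors_mul hm0 hP0, hP.primeFactors, union_comm, ← insert_eq, sum_insert hPm]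
  have h1 : (m * P).factorization P = 1 := by
    rw [Nat.factorization_mul hm0 hP0]
    simp [Nat.factorization_eq_zero_of_not_dvd h, hP.factorization_self]
  have h2 : m * P / P ^ (m * P).factorization P = m := by
    rw [h1, pow_one]
    exact Nat.mul_div_cancel _ hP.pos
  rw [h2, add_comm m, sum_mul]
  congr 1
  apply sum_congr rfl
  intro p hp
  have hpp := Nat.prime_of_mem_primeFactors hp
  have hne : p ≠ P := fun hh => hPm (hh ▸ hp)
  have h3 : (m * P).factorization p = m.factorization p := by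
    rw [Nat.factorization_mul hm0 hP0]
    have : P.factorization p = 0 := by
      apply Nat.factorization_eq_zero_of_not_dvd
      intro hd
      exact hne ((Nat.prime_dvd_prime_iff_eq hpp hP).1 hd)
    simp [this]
  rw [h3, Nat.mul_comm m P, Nat.mul_div_assoc _ (Nat.ordProj_dvd m p), Nat.mul_comm]

theorem prod_dvd_iff (S : Finset ℕ) (hS : ∀ p ∈ S, p.Prime) (A : ℕ) :
    (∏ p ∈ S, p) ∣ A ↔ ∀ p ∈ S, p ∣ A := by
  constructor
  · intro h p hp
    exact (dvd_prod_of_mem (fun p => p) hp).trans h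
  · intro h
    exact Finset.prod_primes_dvd A (fun p hp => (hS p hp).prime) h

theorem FF_expand (z : ℕ) (x : ℕ → ℝ) (m P : ℕ) (hm : 1 ≤ m) (hP : P.Prime) (h : ¬ P ∣ m)
    (hz : z < P) :
    FF z x (m * P) = (∏ p ∈ (Pz z).filter (fun p => p ∣ m), (1 + x p)) *
      ∑ S ∈ ((Pz z).filter (fun p => ¬ p ∣ m)).powerset,
        (∏ p ∈ S, x p) * (if (∏ p ∈ S, p) ∣ wf m * P + m then 1 else 0) := by
  have hmP : 2 ≤ m * P := le_trans hP.two_le (Nat.le_mul_of_pos_left _ (by omega))
  have hcop := Pool.Agent.H97.WIter.wf_coprime hmP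
  have hw := wf_mul_prime m P hm hP h
  have hset : (Pz z).filter (fun p => p ∣ m * P * wf (m * P)) =
      (Pz z).filter (fun p => p ∣ m) ∪
        ((Pz z).filter (fun p => ¬ p ∣ m)).filter (fun p => p ∣ wf m * P + m) := by
    ext p
    simp only [mem_filter, mem_union, mem_Pz]
    constructor
    · rintro ⟨⟨hpz, hpp⟩, hd⟩
      by_cases hpm : p ∣ m
      · exact Or.inl ⟨⟨hpz, hpp⟩, hpm⟩
      · refine Or.inr ⟨⟨⟨hpz, hpp⟩, hpm⟩, ?_⟩
        rcases (hpp.dvd_mul).1 hd with h1 | h1
        · rcases (hpp.dvd_mul).1 h1 with h2 | h2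
          · exact absurd h2 hpm
          · have := (Nat.prime_dvd_prime_iff_eq hpp hP).1 h2
            omega
        · rwa [hw] at h1
    · rintro (⟨⟨hpz, hpp⟩, hd⟩ | ⟨⟨⟨hpz, hpp⟩, hpm⟩, hd⟩)
      · exact ⟨⟨hpz, hpp⟩, (hd.mul_right P).mul_right _⟩
      · refine ⟨⟨hpz, hpp⟩, Dvd.dvd.mul_left ?_ _⟩
        rwa [hw]
  have hdisj : Disjoint ((Pz z).filter (fun p => p ∣ m))
      (((Pz z).filter (fun p => ¬ p ∣ m)).filter (fun p => p ∣ wf m * P + m)) := by
    rw [disjoint_left]
    intro p hp hq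
    rw [mem_filter] at hp
    rw [mem_filter, mem_filter] at hq
    exact hq.1.2 hp.2
  unfold FF
  rw [hset, prod_union hdisj]
  congr 1
  have h1 : ∏ p ∈ ((Pz z).filter (fun p => ¬ p ∣ m)).filter (fun p => p ∣ wf m * P + m), (1 + x p) =
      ∏ p ∈ (Pz z).filter (fun p => ¬ p ∣ m),
        (1 + x p * (if p ∣ wf m * P + m then 1 else 0)) := by
    rw [prod_filter]
    apply prod_congr rfl
    intro p _
    split_ifs <;> simp
  rw [h1, prod_one_add]
  apply sum_congr rfl
  intro S hS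
  rw [mem_powerset] at hS
  have hSp : ∀ p ∈ S, p.Prime := fun p hp => (mem_Pz.1 (mem_filter.1 (hS hp)).1).2
  rw [prod_mul_distrib]
  congr 1
  by_cases hd : (∏ p ∈ S, p) ∣ wf m * P + m
  · rw [if_pos hd]
    apply prod_eq_one
    intro p hp
    rw [if_pos ((prod_dvd_iff S hSp _).1 hd p hp)]
  · rw [if_neg hd]
    have : ∃ p ∈ S, ¬ p ∣ wf m * P + m := by
      by_contra hcon
      push Not at hcon
      exact hd ((prod_dvd_iff S hSp _).2 hcon)
    obtain ⟨p, hp, hpd⟩ := this
    exact prod_eq_zero hp (if_neg hpd)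

end Pool.Agent.H31.DD
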