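import Pool.Agent.H31.DD.Defs
import Pool.Agent.H3.LC.Mertens

/-!
# DD Bad: almost all `n` are good

Three kinds of bad `n ≤ N` (`y = ⌊N^δ⌋`, `N` large):
* `n ≤ N^(3/4)`: at most `N^(3/4) ≤ δ N / 4`;
* `p² ∣ n` for a prime `p > y`: at most `∑_(k > y) N / k² ≤ N / y ≤ δ N / 4`;
* `s(n) := log n - big y n ≥ (1/4) log N`: `s(n)` is the sum of `Λ(d)` over the divisors `d` of `n`
  which are not primes `> y`, so `∑_(n ≤ N) s(n) ≤ N (∑_(d ≤ y) Λ(d) / d + ∑_(d not prime) Λ(d) / d)`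
  `≤ N (log y + C) ≤ N (δ log N + C)`, and Markov gives at most `4 (δ + C / log N) N ≤ (9/2) δ N`.
All other `n` have `big y n = log n - s(n) ≥ (3/4 - 1/4) log N`.
-/

set_option autoImplicit false

namespace Pool.Agent.H31.DD

open Finset

open scoped ArithmeticFunction.vonMangoldt

/-- the sum of `Λ d` over the divisors `d` of `n` which are not primes `> y` -/
private noncomputable def Bad_T (y n : ℕ) : ℝ :=
  ∑ d ∈ n.divisors.filter (fun d => ¬ (d.Prime ∧ y < d)), Λ d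

private theorem Bad_log (y n : ℕ) : Real.log n = Bad_T y n + big y n := by
  have h1 := ArithmeticFunction.vonMangoldt_sum (n := n)
  have h2 : n.primeFactors.filter (fun p => y < p) =
      n.divisors.filter (fun d => d.Prime ∧ y < d) := by
    ext p
    rcases Nat.eq_zero_or_pos n with h0 | h0
    · simp [h0]
    · simp only [mem_filter, Nat.mem_primeFactors, Nat.mem_divisors]
      tauto
  have h3 : big y n = ∑ d ∈ n.divisors.filter (fun d => d.Prime ∧ y < d), Λ d := by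
    unfold big
    rw [h2]
    refine sum_congr rfl fun p hp => ?_
    rw [mem_filter] at hp
    exact (ArithmeticFunction.vonMangoldt_apply_prime hp.2.1).symm
  rw [← h1, h3, Bad_T, add_comm]
  exact (sum_filter_add_sum_filter_not n.divisors (fun d => d.Prime ∧ y < d) (fun d => Λ d)).symm

private theorem Bad_T_nonneg (y n : ℕ) : 0 ≤ Bad_T y n :=
  sum_nonneg fun _ _ => ArithmeticFunction.vonMangoldt_nonneg

private theorem Bad_np : ∃ D : ℝ, 0 ≤ D ∧ ∀ n : ℕ,
    ∑ d ∈ (Icc 1 n).filter (fun d => ¬ d.Prime), Λ d / d ≤ D := by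
  have hs := ArithmeticFunction.vonMangoldt.summable_residueClass_non_primes_div (q := 1) 0
  have hr : ∀ n : ℕ, ArithmeticFunction.vonMangoldt.residueClass (0 : ZMod 1) n = Λ n := by
    intro n
    unfold ArithmeticFunction.vonMangoldt.residueClass
    rw [Set.indicator_of_mem]
    exact Subsingleton.elim _ _
  simp only [hr] at hs
  have hnn : ∀ n : ℕ, 0 ≤ (if n.Prime then 0 else Λ n) / (n : ℝ) := by
    intro n
    split_ifs
    · simp
    · exact div_nonneg ArithmeticFunction.vonMangoldt_nonneg (Nat.cast_nonneg n)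
  refine ⟨∑' n : ℕ, (if n.Prime then 0 else Λ n) / (n : ℝ), tsum_nonneg hnn, fun n => ?_⟩
  have h1 := hs.sum_le_tsum (Icc 1 n) fun i _ => hnn i
  refine le_trans (le_of_eq ?_) h1
  rw [sum_filter]
  refine sum_congr rfl fun d _ => ?_
  by_cases hd : d.Prime <;> simp [hd]

private theorem Bad_sum (y N : ℕ) (hy : 1 ≤ y) {D : ℝ}
    (hD : ∀ n : ℕ, ∑ d ∈ (Icc 1 n).filter (fun d => ¬ d.Prime), Λ d / d ≤ D) :
    ∑ n ∈ Icc 1 N, Bad_T y n ≤ N * (Real.log y + (Real.log 4 + 4) + D) := by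
  classical
  have h1 : ∀ n ∈ Icc 1 N, Bad_T y n =
      ∑ d ∈ Icc 1 N, if d ∣ n ∧ ¬ (d.Prime ∧ y < d) then Λ d else 0 := by
    intro n hn
    rw [mem_Icc] at hn
    rw [Bad_T, ← sum_filter]
    refine sum_congr ?_ fun _ _ => rfl
    ext d
    simp only [mem_filter, Nat.mem_divisors, mem_Icc]
    constructor
    · rintro ⟨⟨h2, h3⟩, h4⟩
      exact ⟨⟨Nat.pos_of_dvd_of_pos h2 hn.1, (Nat.le_of_dvd hn.1 h2).trans hn.2⟩, h2, h4⟩
    · rintro ⟨_, h2, h4⟩
      exact ⟨⟨h2, by omega⟩, h4⟩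
  rw [sum_congr rfl h1, sum_comm]
  have h2 : ∀ d ∈ Icc 1 N, (∑ n ∈ Icc 1 N, if d ∣ n ∧ ¬ (d.Prime ∧ y < d) then Λ d else 0) ≤
      N * ((if d ≤ y then Λ d / d else 0) + (if ¬ d.Prime then Λ d / d else 0)) := by
    intro d hd
    rw [mem_Icc] at hd
    have hd0 : (0 : ℝ) < d := by exact_mod_cast hd.1
    have hL : 0 ≤ Λ d := ArithmeticFunction.vonMangoldt_nonneg
    have hL2 : 0 ≤ Λ d / d := div_nonneg hL hd0.le
    by_cases hP : d.Prime ∧ y < d
    · have e : (∑ n ∈ Icc 1 N, if d ∣ n ∧ ¬ (d.Prime ∧ y < d) then Λ d else 0) = 0 := by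
        refine sum_eq_zero fun n _ => ?_
        rw [if_neg]
        tauto
      rw [e]
      refine mul_nonneg (Nat.cast_nonneg N) (add_nonneg ?_ ?_)
      · split_ifs <;> first | exact hL2 | exact le_rfl
      · split_ifs <;> first | exact hL2 | exact le_rfl
    · have e : (∑ n ∈ Icc 1 N, if d ∣ n ∧ ¬ (d.Prime ∧ y < d) then Λ d else 0) =
          ((N / d : ℕ) : ℝ) * Λ d := by
        rw [← sum_filter, sum_const, nsmul_eq_mul]
        congr 2
        have e2 : (Icc 1 N).filter (fun n => d ∣ n ∧ ¬ (d.Prime ∧ y < d)) =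
            (Ioc 0 N).filter (fun n => d ∣ n) := by
          ext n
          simp only [mem_filter, mem_Icc, mem_Ioc]
          constructor
          · rintro ⟨h3, h4, _⟩
            exact ⟨⟨by omega, h3.2⟩, h4⟩
          · rintro ⟨h3, h4⟩
            exact ⟨⟨by omega, h3.2⟩, h4, hP⟩
        rw [e2, Nat.Ioc_filter_dvd_card_eq_div]
      rw [e]
      have h3 : ((N / d : ℕ) : ℝ) * Λ d ≤ N * (Λ d / d) := by
        have := @Nat.cast_div_le ℝ _ _ _ N d
        calc ((N / d : ℕ) : ℝ) * Λ d ≤ ((N : ℝ) / d) * Λ d := mul_le_mul_of_nonneg_right this hL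
          _ = N * (Λ d / d) := by ring
      refine h3.trans (mul_le_mul_of_nonneg_left ?_ (Nat.cast_nonneg N))
      by_cases h4 : d ≤ y
      · rw [if_pos h4]
        have h5 : 0 ≤ (if ¬ d.Prime then Λ d / d else 0) := by
          split_ifs <;> first | exact hL2 | exact le_rfl
        linarith
      · have h5 : ¬ d.Prime := fun h => hP ⟨h, by omega⟩
        rw [if_neg h4, if_pos h5, zero_add]
  refine (sum_le_sum h2).trans ?_
  rw [← mul_sum, sum_add_distrib]
  refine mul_le_mul_of_nonneg_left ?_ (Nat.cast_nonneg N)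
  refine add_le_add ?_ ?_
  · refine le_trans ?_ (Pool.Agent.H3.LC.mertensM_le y hy)
    rw [← sum_filter, Pool.Agent.H3.LC.mertensM]
    refine sum_le_sum_of_subset_of_nonneg ?_ fun d _ _ => div_nonneg
      ArithmeticFunction.vonMangoldt_nonneg (Nat.cast_nonneg d)
    intro d hd
    rw [mem_filter, mem_Icc] at hd
    rw [mem_Ioc]
    omega
  · rw [← sum_filter]
    exact hD N

open Classical in
private theorem Bad_sq (y N : ℕ) (hy : 1 ≤ y) :
    (((Icc 1 N).filter (fun n => ∃ p : ℕ, p.Prime ∧ y < p ∧ p ^ 2 ∣ n)).card : ℝ) ≤ N / y := by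
  have hy0 : (0 : ℝ) < y := by exact_mod_cast hy
  rcases le_or_gt N y with hNy | hNy
  · have e : (Icc 1 N).filter (fun n => ∃ p : ℕ, p.Prime ∧ y < p ∧ p ^ 2 ∣ n) = ∅ := by
      rw [filter_eq_empty_iff]
      rintro n hn ⟨p, _, h2, h3⟩
      rw [mem_Icc] at hn
      have h4 := Nat.le_of_dvd hn.1 h3
      nlinarith
    rw [e]
    simp only [card_empty, Nat.cast_zero]
    positivity
  have h1 : (Icc 1 N).filter (fun n => ∃ p : ℕ, p.Prime ∧ y < p ∧ p ^ 2 ∣ n) ⊆
      (Ioc y N).biUnion fun k => (Ioc 0 N).filter fun n => k ^ 2 ∣ n := by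
    intro n hn
    rw [mem_filter, mem_Icc] at hn
    obtain ⟨hn1, p, _, h2, h3⟩ := hn
    have h4 := Nat.le_of_dvd hn1.1 h3
    rw [mem_biUnion]
    refine ⟨p, mem_Ioc.2 ⟨h2, ?_⟩, mem_filter.2 ⟨mem_Ioc.2 ⟨by omega, hn1.2⟩, h3⟩⟩
    nlinarith
  have h2 : (((Icc 1 N).filter (fun n => ∃ p : ℕ, p.Prime ∧ y < p ∧ p ^ 2 ∣ n)).card : ℝ) ≤
      ∑ k ∈ Ioc y N, (N : ℝ) * (((k : ℝ) ^ 2)⁻¹) := by
    refine le_trans (Nat.cast_le.2 ((card_le_card h1).trans card_biUnion_le)) ?_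
    rw [Nat.cast_sum]
    refine sum_le_sum fun k _ => ?_
    rw [Nat.Ioc_filter_dvd_card_eq_div]
    have := @Nat.cast_div_le ℝ _ _ _ N (k ^ 2)
    rw [Nat.cast_pow, div_eq_mul_inv] at this
    exact this
  refine h2.trans ?_
  rw [← mul_sum, div_eq_mul_inv]
  refine mul_le_mul_of_nonneg_left ?_ (Nat.cast_nonneg N)
  have h3 := sum_Ioc_inv_sq_le_sub (α := ℝ) (k := y) (n := N) (by omega) hNy.le
  have h4 : (0 : ℝ) ≤ ((N : ℝ))⁻¹ := by positivity
  linarith

open Classical in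
theorem bad_le (δ : ℝ) (hδ : 0 < δ) (hδ1 : δ ≤ 1) : ∃ N0 : ℕ, ∀ N : ℕ, N0 ≤ N →
    (((Icc 1 N).filter (fun n => ¬ Good N (yy δ N) n)).card : ℝ) ≤ 5 * δ * N := by
  obtain ⟨D, hD0, hD⟩ := Bad_np
  have hl4 : 0 ≤ Real.log 4 := Real.log_nonneg (by norm_num)
  -- the three thresholds
  have t1 : Filter.Tendsto (fun N : ℕ => Real.log (N : ℝ)) Filter.atTop Filter.atTop :=
    Real.tendsto_log_atTop.comp tendsto_natCast_atTop_atTop
  have t2 : Filter.Tendsto (fun N : ℕ => (N : ℝ) ^ (1 / 4 : ℝ)) Filter.atTop Filter.atTop :=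
    (tendsto_rpow_atTop (by norm_num)).comp tendsto_natCast_atTop_atTop
  have t3 : Filter.Tendsto (fun N : ℕ => (N : ℝ) ^ δ) Filter.atTop Filter.atTop :=
    (tendsto_rpow_atTop hδ).comp tendsto_natCast_atTop_atTop
  have ev := ((t1.eventually_ge_atTop (8 * (Real.log 4 + 4 + D) / δ)).and
    ((t2.eventually_ge_atTop (4 / δ)).and ((t3.eventually_ge_atTop (4 / δ + 1)).and
      (Filter.eventually_ge_atTop 2)))).exists_forall_of_atTop
  obtain ⟨N0, hN0⟩ := ev
  refine ⟨N0, fun N hN => ?_⟩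
  obtain ⟨e1, e2, e3, e4⟩ := hN0 N hN
  have hN1 : (1 : ℝ) < N := by exact_mod_cast e4
  have hNpos : (0 : ℝ) < N := by linarith
  have hlog : 0 < Real.log N := Real.log_pos hN1
  set y := yy δ N with hy
  have hy4 : 4 / δ ≤ (y : ℝ) := by
    have := Nat.lt_floor_add_one ((N : ℝ) ^ δ)
    rw [hy, yy]
    linarith
  have hδ4 : (4 : ℝ) ≤ 4 / δ := by
    rw [le_div_iff₀ hδ]
    linarith
  have hy1 : 1 ≤ y := by
    have : (1 : ℝ) ≤ y := by linarith
    exact_mod_cast this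
  have hy0 : (0 : ℝ) < y := by exact_mod_cast hy1
  have hylog : Real.log y ≤ δ * Real.log N := by
    rw [← Real.log_rpow hNpos]
    refine Real.log_le_log hy0 ?_
    rw [hy, yy]
    exact Nat.floor_le (by positivity)
  -- the three exceptional sets
  set B1 := (Icc 1 N).filter (fun n : ℕ => (n : ℝ) ≤ (N : ℝ) ^ (3 / 4 : ℝ)) with hB1
  set B2 := (Icc 1 N).filter (fun n => ∃ p : ℕ, p.Prime ∧ y < p ∧ p ^ 2 ∣ n) with hB2
  set B3 := (Icc 1 N).filter (fun n => 1 / 4 * Real.log N ≤ Bad_T y n) with hB3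
  have hsub : (Icc 1 N).filter (fun n => ¬ Good N y n) ⊆ B1 ∪ B2 ∪ B3 := by
    intro n hn
    rw [mem_filter] at hn
    by_contra hc
    rw [mem_union, mem_union, not_or, not_or] at hc
    obtain ⟨⟨c1, c2⟩, c3⟩ := hc
    rw [hB1, mem_filter, not_and, not_le] at c1
    rw [hB2, mem_filter, not_and] at c2
    rw [hB3, mem_filter, not_and, not_le] at c3
    have c1' := c1 hn.1
    have c2' := c2 hn.1
    have c3' := c3 hn.1
    apply hn.2
    refine ⟨?_, ?_⟩
    · have h1 : Real.log ((N : ℝ) ^ (3 / 4 : ℝ)) ≤ Real.log n :=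
        Real.log_le_log (by positivity) c1'.le
      rw [Real.log_rpow hNpos] at h1
      have h2 := Bad_log y n
      linarith
    · intro p hp hyp hd
      exact c2' ⟨p, hp, hyp, hd⟩
  have hb1 : (B1.card : ℝ) ≤ δ / 4 * N := by
    have h1 : B1 ⊆ Icc 1 ⌊(N : ℝ) ^ (3 / 4 : ℝ)⌋₊ := by
      intro n hn
      rw [hB1, mem_filter, mem_Icc] at hn
      exact mem_Icc.2 ⟨hn.1.1, Nat.le_floor hn.2⟩
    have h2 : (B1.card : ℝ) ≤ (N : ℝ) ^ (3 / 4 : ℝ) := by
      refine le_trans (Nat.cast_le.2 (card_le_card h1)) ?_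
      rw [Nat.card_Icc, Nat.add_sub_cancel]
      exact Nat.floor_le (by positivity)
    have h3 : (N : ℝ) ^ (3 / 4 : ℝ) * (N : ℝ) ^ (1 / 4 : ℝ) = N := by
      rw [← Real.rpow_add hNpos]
      norm_num
    have h4 : (N : ℝ) ^ (3 / 4 : ℝ) * (4 / δ) ≤ N := by
      calc (N : ℝ) ^ (3 / 4 : ℝ) * (4 / δ) ≤ (N : ℝ) ^ (3 / 4 : ℝ) * (N : ℝ) ^ (1 / 4 : ℝ) :=
            mul_le_mul_of_nonneg_left e2 (by positivity)
        _ = N := h3
    have h5 : (N : ℝ) ^ (3 / 4 : ℝ) ≤ δ / 4 * N := by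
      have h6 := mul_le_mul_of_nonneg_left h4 (show 0 ≤ δ / 4 by positivity)
      have h7 : δ / 4 * ((N : ℝ) ^ (3 / 4 : ℝ) * (4 / δ)) = (N : ℝ) ^ (3 / 4 : ℝ) := by
        field_simp
      linarith
    linarith
  have hb2 : (B2.card : ℝ) ≤ δ / 4 * N := by
    refine (Bad_sq y N hy1).trans ?_
    rw [div_le_iff₀ hy0]
    have h1 := mul_le_mul_of_nonneg_left hy4 (show 0 ≤ δ / 4 * N by positivity)
    have h2 : δ / 4 * N * (4 / δ) = N := by field_simp
    linarith
  have hb3 : (B3.card : ℝ) ≤ 9 / 2 * δ * N := by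
    have h1 : (B3.card : ℝ) * (1 / 4 * Real.log N) ≤ ∑ n ∈ Icc 1 N, Bad_T y n := by
      calc (B3.card : ℝ) * (1 / 4 * Real.log N) = ∑ _n ∈ B3, 1 / 4 * Real.log N := by
            rw [sum_const, nsmul_eq_mul]
        _ ≤ ∑ n ∈ B3, Bad_T y n := sum_le_sum fun n hn => (mem_filter.1 hn).2
        _ ≤ ∑ n ∈ Icc 1 N, Bad_T y n :=
            sum_le_sum_of_subset_of_nonneg (filter_subset _ _) fun n _ _ => Bad_T_nonneg y n
    have h2 := Bad_sum y N hy1 hD
    rw [div_le_iff₀ hδ] at e1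
    have h3 : (N : ℝ) * (Real.log y + (Real.log 4 + 4) + D) ≤
        9 / 2 * δ * N * (1 / 4 * Real.log N) := by
      have h4 : Real.log y + (Real.log 4 + 4) + D ≤ 9 / 8 * δ * Real.log N := by
        nlinarith
      calc (N : ℝ) * (Real.log y + (Real.log 4 + 4) + D) ≤ N * (9 / 8 * δ * Real.log N) :=
            mul_le_mul_of_nonneg_left h4 hNpos.le
        _ = 9 / 2 * δ * N * (1 / 4 * Real.log N) := by ring
    exact le_of_mul_le_mul_right (h1.trans (h2.trans h3)) (by positivity)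
  have hcard : (((Icc 1 N).filter (fun n => ¬ Good N y n)).card : ℝ) ≤
      B1.card + B2.card + B3.card := by
    have h1 := (card_le_card hsub).trans ((card_union_le _ _).trans
      (Nat.add_le_add_right (card_union_le _ _) _))
    exact_mod_cast h1
  linarith

end Pool.Agent.H31.DD
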