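import Pool.Agent.H31.DD.Defs
import Pool.Agent.H91.EHA.SwK1

/-!
# DD Cls: the primes `P` with `d ∣ a P + b`

If `x ≤ y = ⌊N^δ⌋` the sum is empty. Otherwise `x > N^δ`, `log x ≥ δ log N`, so `d ≤ log N ≤ (log x)²`
for large `N`. If some prime `P₀` of the range has `d ∣ a P₀ + b`, then `d` is prime to `a` and to
`P₀` (a common prime would divide `b`), and `d ∣ a P + b` forces `P ≡ P₀ mod d`; so the sum is at
most `ψ(x; d, P₀) ≤ x / φ(d) + x / (log x)³ ≤ 2 x / φ(d)` (`Pool.Agent.H91.EHA.psi_ap` with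
`B = 2`, `k = 3`; `φ(d) ≤ (log x)²`; `Λ(p) = log p`, `Λ ≥ 0`).
-/

set_option autoImplicit false

namespace Pool.Agent.H31.DD

open Finset

private theorem Cls_cop {d a b P : ℕ} (hb : Nat.Coprime d b) (h : d ∣ a * P + b) :
    Nat.Coprime d a ∧ Nat.Coprime d P := by
  have key : ∀ c : ℕ, c ∣ a * P → Nat.gcd d c ∣ b := by
    intro c hc
    have h1 : Nat.gcd d c ∣ a * P := (Nat.gcd_dvd_right d c).trans hc
    have h2 : Nat.gcd d c ∣ a * P + b := (Nat.gcd_dvd_left d c).trans h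
    exact (Nat.dvd_add_right h1).1 h2
  have key2 : ∀ c : ℕ, c ∣ a * P → Nat.Coprime d c := by
    intro c hc
    have h1 : Nat.gcd d c ∣ Nat.gcd d b := Nat.dvd_gcd (Nat.gcd_dvd_left d c) (key c hc)
    rw [hb] at h1
    exact Nat.dvd_one.1 h1
  exact ⟨key2 a (Dvd.intro _ rfl), key2 P (Dvd.intro_left _ rfl)⟩

private theorem Cls_modEq {d a b P Q : ℕ} (ha : Nat.Coprime d a) (h1 : d ∣ a * P + b)
    (h2 : d ∣ a * Q + b) : P ≡ Q [MOD d] := by
  have h3 : a * P + b ≡ a * Q + b [MOD d] :=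
    ((Nat.modEq_zero_iff_dvd.2 h1).trans (Nat.modEq_zero_iff_dvd.2 h2).symm)
  have h4 : a * P ≡ a * Q [MOD d] := Nat.ModEq.add_right_cancel' b h3
  exact Nat.ModEq.cancel_left_of_coprime ha h4

theorem cls (δ : ℝ) (hδ : 0 < δ) : ∃ N0 : ℕ, ∀ N : ℕ, N0 ≤ N → ∀ x d a b : ℕ, x ≤ N → 1 ≤ d →
    (d : ℝ) ≤ Real.log N → Nat.Coprime d b →
    ∑ P ∈ (Ioc (yy δ N) x).filter (fun P => P.Prime ∧ d ∣ a * P + b), Real.log P ≤
      2 * x / (d.totient : ℝ) := by
  obtain ⟨x0, hx0⟩ := Pool.Agent.H91.EHA.psi_ap 2 3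
  have h1 : ∀ᶠ N : ℕ in Filter.atTop, (x0 : ℝ) + 3 ≤ (N : ℝ) ^ δ :=
    ((tendsto_rpow_atTop hδ).comp tendsto_natCast_atTop_atTop).eventually_ge_atTop _
  have h2 : ∀ᶠ N : ℕ in Filter.atTop, max (1 / δ) (1 / δ ^ 2) ≤ Real.log N :=
    (Real.tendsto_log_atTop.comp tendsto_natCast_atTop_atTop).eventually_ge_atTop _
  obtain ⟨N0, hN0⟩ := Filter.eventually_atTop.1 (h1.and h2)
  refine ⟨N0, fun N hN x d a b hxN hd hdN hdb => ?_⟩
  obtain ⟨e1, e2⟩ := hN0 N hN
  have hφ : 0 < d.totient := Nat.totient_pos.2 hd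
  have hφR : (0 : ℝ) < d.totient := by exact_mod_cast hφ
  have hrhs : (0 : ℝ) ≤ 2 * x / (d.totient : ℝ) := by positivity
  rcases Finset.eq_empty_or_nonempty
    ((Ioc (yy δ N) x).filter (fun P => P.Prime ∧ d ∣ a * P + b)) with he | ⟨P0, hP0⟩
  · rw [he, Finset.sum_empty]
    exact hrhs
  rw [mem_filter, mem_Ioc] at hP0
  obtain ⟨⟨hP1, hP2⟩, hPp, hPd⟩ := hP0
  obtain ⟨ca, cP⟩ := Cls_cop hdb hPd
  -- size of `x`
  have hxN1 : (N : ℝ) ^ δ < x := by
    have h3 : yy δ N < x := lt_of_lt_of_le hP1 hP2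
    unfold yy at h3
    exact (Nat.floor_lt (by positivity)).1 h3
  have hNpos : (0 : ℝ) < N := by
    rcases Nat.eq_zero_or_pos N with h0 | h0
    · exfalso
      rw [h0] at e2
      have h3 : (0 : ℝ) < 1 / δ := by positivity
      have h4 := (le_max_left _ _).trans e2
      simp at h4
      have h5 : (0 : ℝ) < δ⁻¹ := by positivity
      linarith
    · exact_mod_cast h0
  have hNδ : (0 : ℝ) < (N : ℝ) ^ δ := Real.rpow_pos_of_pos hNpos _
  have hlogx : δ * Real.log N ≤ Real.log x := by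
    rw [← Real.log_rpow hNpos]
    exact Real.log_le_log hNδ hxN1.le
  have hL1 : 1 ≤ δ * Real.log N := by
    have h3 := (le_max_left _ _).trans e2
    rw [div_le_iff₀ hδ] at h3
    linarith
  have hL2 : 1 ≤ δ ^ 2 * Real.log N := by
    have h3 := (le_max_right _ _).trans e2
    rw [div_le_iff₀ (by positivity)] at h3
    linarith
  have hlx1 : 1 ≤ Real.log x := hL1.trans hlogx
  have hlogN : 0 ≤ Real.log N := by
    by_contra h3
    push Not at h3
    have : δ * Real.log N < 0 := mul_neg_of_pos_of_neg hδ h3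
    linarith
  have hsq : Real.log N ≤ Real.log x ^ 2 := by
    have h3 : (δ * Real.log N) ^ 2 ≤ Real.log x ^ 2 := by
      apply pow_le_pow_left₀ (by linarith) hlogx
    have h4 : Real.log N ≤ (δ * Real.log N) ^ 2 := by
      have h5 : (δ * Real.log N) ^ 2 = (δ ^ 2 * Real.log N) * Real.log N := by ring
      rw [h5]
      nlinarith [mul_le_mul_of_nonneg_right hL2 hlogN]
    linarith
  have hxx0 : x0 ≤ x := by
    have h3 : (x0 : ℝ) ≤ x := by linarith
    exact_mod_cast h3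
  have hpsi := hx0 x hxx0 x le_rfl d hd (hdN.trans hsq) P0 cP.symm
  have hφle : (d.totient : ℝ) ≤ Real.log x ^ 3 := by
    have h3 : (d.totient : ℝ) ≤ d := by exact_mod_cast Nat.totient_le d
    have h4 : Real.log x ^ 2 ≤ Real.log x ^ 3 := pow_le_pow_right₀ hlx1 (by norm_num)
    linarith
  have herr : (x : ℝ) / Real.log x ^ 3 ≤ x / (d.totient : ℝ) := by
    apply div_le_div_of_nonneg_left (by positivity) hφR hφle
  have hpsi2 : Pool.Agent.H91.EHA.psiA x d P0 ≤ 2 * x / (d.totient : ℝ) := by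
    have h3 := (abs_le.1 hpsi).2
    have h4 : (2 : ℝ) * x / (d.totient : ℝ) = x / (d.totient : ℝ) + x / (d.totient : ℝ) := by ring
    rw [h4]
    linarith
  refine le_trans ?_ hpsi2
  unfold Pool.Agent.H91.EHA.psiA
  calc ∑ P ∈ (Ioc (yy δ N) x).filter (fun P => P.Prime ∧ d ∣ a * P + b), Real.log P
      = ∑ P ∈ (Ioc (yy δ N) x).filter (fun P => P.Prime ∧ d ∣ a * P + b),
          Pool.Agent.H91.EHA.Lam P := by
        apply Finset.sum_congr rfl
        intro P hP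
        rw [mem_filter] at hP
        unfold Pool.Agent.H91.EHA.Lam
        rw [ArithmeticFunction.vonMangoldt_apply_prime hP.2.1]
    _ ≤ ∑ n ∈ (Icc 1 x).filter (fun n => n ≡ P0 [MOD d]), Pool.Agent.H91.EHA.Lam n := by
        apply Finset.sum_le_sum_of_subset_of_nonneg
        · intro P hP
          rw [mem_filter, mem_Ioc] at hP
          rw [mem_filter, mem_Icc]
          exact ⟨⟨hP.2.1.one_le, hP.1.2⟩, Cls_modEq ca hP.2.2 hPd⟩
        · intro n _ _
          unfold Pool.Agent.H91.EHA.Lam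
          exact ArithmeticFunction.vonMangoldt_nonneg

end Pool.Agent.H31.DD
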