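import Pool.Agent.H97.WIter

/-!
# Two steps of the function `w` of Erdos: definitions

`wf` (file `H97/WIter.lean`) is `w(n)`, the sum of `n / p^a` over the prime powers `p^a` exactly
dividing `n`.  Project DD (MP_17b696_nt, note 4900): `w(w(n)) < n` outside a set of upper density
less than `10^(-12)`.
-/

set_option autoImplicit false

namespace Pool.Agent.H31.DD

open Finset
open Pool.Agent.H97.WIter (wf)

/-- the lower end `⌊N^δ⌋` of the range of the large primes -/
noncomputable def yy (δ : ℝ) (N : ℕ) : ℕ := ⌊(N : ℝ) ^ δ⌋₊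

/-- the sum of `log p` over the primes `p > y` dividing `n` -/
noncomputable def big (y n : ℕ) : ℝ :=
  ∑ p ∈ n.primeFactors.filter (fun p => y < p), Real.log p

/-- `n` is good: the large primes have at least half of the weight, none divides `n` twice -/
def Good (N y n : ℕ) : Prop :=
  Real.log N / 2 ≤ big y n ∧ ∀ p : ℕ, p.Prime → y < p → ¬ p ^ 2 ∣ n

/-- the weighted sum over the `n = m P`, `P > y` a prime which does not divide `m` -/
noncomputable def WS (N y : ℕ) (f : ℕ → ℝ) : ℝ :=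
  ∑ m ∈ Icc 1 N, ∑ P ∈ (Ioc y (N / m)).filter (fun P => P.Prime ∧ ¬ P ∣ m),
    f (m * P) * Real.log P

/-- the sum of `1 / p` over the primes `p` dividing `n` with `u < p ≤ v` -/
noncomputable def rcp (u v n : ℕ) : ℝ :=
  ∑ p ∈ n.primeFactors.filter (fun p => u < p ∧ p ≤ v), (1 : ℝ) / p

/-- the primes up to `z` -/
def Pz (z : ℕ) : Finset ℕ := (range (z + 1)).filter Nat.Prime

/-- the product of the `1 + x p` over the primes `p ≤ z` dividing `n w(n)` -/
noncomputable def FF (z : ℕ) (x : ℕ → ℝ) (n : ℕ) : ℝ :=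
  ∏ p ∈ (Pz z).filter (fun p => p ∣ n * wf n), (1 + x p)

/-- the local majorant -/
noncomputable def GG (z : ℕ) (x : ℕ → ℝ) (m : ℕ) : ℝ :=
  ∏ p ∈ Pz z, (if p ∣ m then 1 + x p else 1 + x p / ((p : ℝ) - 1))

theorem mem_Pz {z p : ℕ} : p ∈ Pz z ↔ p ≤ z ∧ p.Prime := by
  unfold Pz
  rw [mem_filter, mem_range, Nat.lt_succ_iff]

theorem two_le_of_mem_Pz {z p : ℕ} (hp : p ∈ Pz z) : (2 : ℝ) ≤ p := by
  exact_mod_cast (mem_Pz.mp hp).2.two_le

end Pool.Agent.H31.DD
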