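import Pool.Agent.H31.DD.Arith
import Pool.Agent.H31.DD.Cls

/-!
# DD Inner: the sum over `P` for one `m`

`FF_expand` and `cls` (with `d = ∏ p ∈ S, p`, prime to `m` because no `p ∈ S` divides `m`,
`d ≤ z^z ≤ log N` for large `N`, `φ(d) = ∏ (p - 1)`, `x = N / m`, `z < P` because `z ≤ ⌊N^δ⌋` for large `N`):
`∑_P log P FF(m P) ≤ ∏_(p ∣ m) (1 + x p) ∑_S ∏_(p ∈ S) x p · 2 (N / m) / ∏_(p ∈ S) (p - 1) = 2 (N/m) GG(m)`
(`Finset.prod_one_add` backwards; the natural number `N / m` is at most the real `N / m`).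
-/

set_option autoImplicit false

namespace Pool.Agent.H31.DD

open Finset

/-- the totient of a product of distinct primes -/
theorem totient_prod (S : Finset ℕ) (hS : ∀ p ∈ S, p.Prime) :
    ((∏ p ∈ S, p).totient : ℝ) = ∏ p ∈ S, ((p : ℝ) - 1) := by
  classical
  induction S using Finset.induction_on with
  | empty => simp
  | insert q S hq ih =>
    have hqp : q.Prime := hS q (mem_insert_self q S)
    have hSp : ∀ p ∈ S, p.Prime := fun p hp => hS p (mem_insert_of_mem hp)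
    rw [prod_insert hq, prod_insert hq]
    have hcop : Nat.Coprime q (∏ p ∈ S, p) := by
      apply Nat.Coprime.prod_right
      intro p hp
      exact (Nat.coprime_primes hqp (hSp p hp)).2 (fun hh => hq (hh ▸ hp))
    rw [Nat.totient_mul hcop, Nat.cast_mul, ih hSp, Nat.totient_prime hqp,
      Nat.cast_sub hqp.one_le, Nat.cast_one]

/-- for large `N` every product of distinct primes up to `z` is at most `log N` and `z ≤ ⌊N^δ⌋` -/
theorem large (δ : ℝ) (hδ : 0 < δ) (z : ℕ) : ∃ N0 : ℕ, ∀ N : ℕ, N0 ≤ N →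
    z ≤ yy δ N ∧ ∀ S : Finset ℕ, S ⊆ Pz z → ((∏ p ∈ S, p : ℕ) : ℝ) ≤ Real.log N := by
  have h1 : Filter.Tendsto (fun N : ℕ => (N : ℝ) ^ δ) Filter.atTop Filter.atTop :=
    (tendsto_rpow_atTop hδ).comp tendsto_natCast_atTop_atTop
  have h2 : Filter.Tendsto (fun N : ℕ => Real.log (N : ℝ)) Filter.atTop Filter.atTop :=
    Real.tendsto_log_atTop.comp tendsto_natCast_atTop_atTop
  have h3 := (h1.eventually_ge_atTop (z : ℝ)).and
    (h2.eventually_ge_atTop (((z + 1) ^ (z + 1) : ℕ) : ℝ))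
  obtain ⟨N0, hN0⟩ := Filter.eventually_atTop.1 h3
  refine ⟨N0, fun N hN => ⟨Nat.le_floor (hN0 N hN).1, fun S hS => ?_⟩⟩
  refine le_trans ?_ (hN0 N hN).2
  have h4 : ∏ p ∈ S, p ≤ (z + 1) ^ (z + 1) := by
    calc ∏ p ∈ S, p ≤ ∏ _p ∈ S, (z + 1) := by
          apply prod_le_prod'
          intro p hp
          have := (mem_Pz.1 (hS hp)).1
          omega
      _ = (z + 1) ^ S.card := by rw [prod_const]
      _ ≤ (z + 1) ^ (z + 1) := by
          apply Nat.pow_le_pow_right (by omega)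
          have h5 : S ⊆ range (z + 1) := fun p hp => by
            have := (mem_Pz.1 (hS hp)).1
            rw [mem_range]
            omega
          have := card_le_card h5
          rwa [card_range] at this
  exact_mod_cast h4

theorem inner_le (δ : ℝ) (hδ : 0 < δ) (z : ℕ) (x : ℕ → ℝ) (hx : ∀ p, 0 ≤ x p) :
    ∃ N0 : ℕ, ∀ N : ℕ, N0 ≤ N → ∀ m ∈ Icc 1 N,
      ∑ P ∈ (Ioc (yy δ N) (N / m)).filter (fun P => P.Prime ∧ ¬ P ∣ m),
        FF z x (m * P) * Real.log P ≤ 2 * ((N : ℝ) / m) * GG z x m := by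
  obtain ⟨N1, hN1⟩ := cls δ hδ
  obtain ⟨N2, hN2⟩ := large δ hδ z
  refine ⟨max N1 N2, fun N hN m hm => ?_⟩
  have hNN1 : N1 ≤ N := le_trans (le_max_left _ _) hN
  have hNN2 : N2 ≤ N := le_trans (le_max_right _ _) hN
  obtain ⟨hzy, hprod⟩ := hN2 N hNN2
  obtain ⟨hm1, hmN⟩ := mem_Icc.1 hm
  set U := (Ioc (yy δ N) (N / m)).filter (fun P => P.Prime ∧ ¬ P ∣ m) with hU
  set A : ℝ := ∏ p ∈ (Pz z).filter (fun p => p ∣ m), (1 + x p) with hA
  set W := (Pz z).filter (fun p => ¬ p ∣ m) with hW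
  have hA0 : 0 ≤ A := prod_nonneg (fun p _ => by have := hx p; linarith)
  have hWp : ∀ S ⊆ W, ∀ p ∈ S, p.Prime := fun S hS p hp =>
    (mem_Pz.1 (mem_filter.1 (hS hp)).1).2
  have hmR : (0 : ℝ) < m := by exact_mod_cast hm1
  -- expansion
  have e1 : ∑ P ∈ U, FF z x (m * P) * Real.log P =
      A * ∑ S ∈ W.powerset, (∏ p ∈ S, x p) *
        ∑ P ∈ U, (if (∏ p ∈ S, p) ∣ Pool.Agent.H97.WIter.wf m * P + m then Real.log P else 0) := by
    have h1 : ∀ P ∈ U, FF z x (m * P) * Real.log P =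
        A * ∑ S ∈ W.powerset, (∏ p ∈ S, x p) *
          (if (∏ p ∈ S, p) ∣ Pool.Agent.H97.WIter.wf m * P + m then Real.log P else 0) := by
      intro P hP
      rw [hU, mem_filter, mem_Ioc] at hP
      rw [FF_expand z x m P hm1 hP.2.1 hP.2.2 (lt_of_le_of_lt hzy hP.1.1), mul_assoc, sum_mul]
      congr 1
      apply sum_congr rfl
      intro S _
      split_ifs <;> simp
    rw [sum_congr rfl h1, ← mul_sum, sum_comm]
    congr 1
    apply sum_congr rfl
    intro S _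
    rw [mul_sum]
  -- bound for one set
  have e2 : ∀ S ∈ W.powerset,
      ∑ P ∈ U, (if (∏ p ∈ S, p) ∣ Pool.Agent.H97.WIter.wf m * P + m then Real.log P else 0) ≤
        2 * ((N : ℝ) / m) * ∏ p ∈ S, ((p : ℝ) - 1)⁻¹ := by
    intro S hS
    rw [mem_powerset] at hS
    have hSp := hWp S hS
    have hcop : Nat.Coprime (∏ p ∈ S, p) m := by
      apply Nat.Coprime.prod_left
      intro p hp
      exact (hSp p hp).coprime_iff_not_dvd.2 (mem_filter.1 (hS hp)).2
    have hd1 : 1 ≤ ∏ p ∈ S, p := Nat.one_le_iff_ne_zero.2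
      (prod_ne_zero_iff.2 fun p hp => (hSp p hp).ne_zero)
    have h2 := hN1 N hNN1 (N / m) (∏ p ∈ S, p) (Pool.Agent.H97.WIter.wf m) m (Nat.div_le_self _ _)
      hd1 (hprod S (hS.trans (filter_subset _ _))) hcop
    rw [totient_prod S hSp] at h2
    have h3 : ∑ P ∈ U, (if (∏ p ∈ S, p) ∣ Pool.Agent.H97.WIter.wf m * P + m
        then Real.log P else 0) ≤
        ∑ P ∈ (Ioc (yy δ N) (N / m)).filter
          (fun P => P.Prime ∧ (∏ p ∈ S, p) ∣ Pool.Agent.H97.WIter.wf m * P + m), Real.log P := by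
      rw [← sum_filter]
      apply sum_le_sum_of_subset_of_nonneg
      · intro P hP
        rw [mem_filter, hU, mem_filter] at hP
        rw [mem_filter]
        exact ⟨hP.1.1, hP.1.2.1, hP.2⟩
      · intro P hP _
        rw [mem_filter] at hP
        exact Real.log_nonneg (by exact_mod_cast hP.2.1.one_le)
    have hpos : 0 < ∏ p ∈ S, ((p : ℝ) - 1) := by
      apply prod_pos
      intro p hp
      have : (2 : ℝ) ≤ p := by exact_mod_cast (hSp p hp).two_le
      linarith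
    refine le_trans (h3.trans h2) ?_
    rw [prod_inv_distrib, div_eq_mul_inv]
    apply mul_le_mul_of_nonneg_right _ (inv_nonneg.2 hpos.le)
    have := @Nat.cast_div_le ℝ _ _ _ N m
    linarith
  -- the sum over the sets
  have e3 : ∑ S ∈ W.powerset, (∏ p ∈ S, x p) * (2 * ((N : ℝ) / m) * ∏ p ∈ S, ((p : ℝ) - 1)⁻¹) =
      2 * ((N : ℝ) / m) * ∏ p ∈ W, (1 + x p / ((p : ℝ) - 1)) := by
    rw [prod_one_add, mul_sum]
    apply sum_congr rfl
    intro S _
    have : ∏ p ∈ S, x p / ((p : ℝ) - 1) = (∏ p ∈ S, x p) * ∏ p ∈ S, ((p : ℝ) - 1)⁻¹ := by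
      rw [← prod_mul_distrib]
      apply prod_congr rfl
      intro p _
      rw [div_eq_mul_inv]
    rw [this]
    ring
  have e4 : GG z x m = A * ∏ p ∈ W, (1 + x p / ((p : ℝ) - 1)) := by
    unfold GG
    rw [prod_ite]
  rw [e1, e4]
  calc A * ∑ S ∈ W.powerset, (∏ p ∈ S, x p) *
        ∑ P ∈ U, (if (∏ p ∈ S, p) ∣ Pool.Agent.H97.WIter.wf m * P + m then Real.log P else 0)
      ≤ A * ∑ S ∈ W.powerset, (∏ p ∈ S, x p) *
          (2 * ((N : ℝ) / m) * ∏ p ∈ S, ((p : ℝ) - 1)⁻¹) := by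
        apply mul_le_mul_of_nonneg_left _ hA0
        apply sum_le_sum
        intro S hS
        exact mul_le_mul_of_nonneg_left (e2 S hS) (prod_nonneg fun p _ => hx p)
    _ = 2 * ((N : ℝ) / m) * (A * ∏ p ∈ W, (1 + x p / ((p : ℝ) - 1))) := by
        rw [e3]
        ring

end Pool.Agent.H31.DD
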