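import Pool.Agent.H31.DD.Defs

/-!
# DD Num80: the sharper numerical estimate (`θ = 1000`)

* `p ≤ 271`: `1 + 2 (e^u - 1) / p ≤ e^u (2 / p + e^(-u))`, `u = 1000 / p`, and `∑ 1 / p < 2`
  (`Pool.Agent.H97.WIter.sum_T1`);
* `277 ≤ p ≤ 1009`: rational upper bounds of `e^(1000 / p)` by powers of `e^(1/16) ≤ 1.0645`;
* `p > 1009`: `e^u - 1 ≤ 1.72 u`, `∑ 1 / p² ≤ 1 / 1009`.
-/

set_option autoImplicit false

namespace Pool.Agent.H31.DD

open Finset

private noncomputable def ff (p : ℕ) : ℝ := 1 + 2 * (Real.exp (1000 / p) - 1) / p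

private theorem one_le_ff (p : ℕ) : 1 ≤ ff p := by
  unfold ff
  have h1 : (1 : ℝ) ≤ Real.exp (1000 / p) := Real.one_le_exp (by positivity)
  have h2 : 0 ≤ 2 * (Real.exp (1000 / p) - 1) / (p : ℝ) :=
    div_nonneg (by linarith) (Nat.cast_nonneg _)
  linarith

private theorem one_le_prod_ff (S : Finset ℕ) : 1 ≤ ∏ p ∈ S, ff p :=
  prod_induction _ (fun x => 1 ≤ x) (fun _ _ ha hb => one_le_mul_of_one_le_of_one_le ha hb) le_rfl
    (fun p _ => one_le_ff p)

private theorem prod_ff_mono {S T : Finset ℕ} (h : S ⊆ T) : ∏ p ∈ S, ff p ≤ ∏ p ∈ T, ff p := by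
  rw [← prod_sdiff h]
  have h1 := one_le_prod_ff S
  have h2 := one_le_prod_ff (T \ S)
  nlinarith

/-- `e^(1/16) ≤ 1.0645` -/
private theorem exp_q : Real.exp (1 / 16) ≤ 10645 / 10000 := by
  have h1 : Real.exp (1 / 16) ^ 16 ≤ (10645 / 10000 : ℝ) ^ 16 := by
    rw [← Real.exp_nat_mul]
    have h2 : ((16 : ℕ) : ℝ) * (1 / 16) = 1 := by norm_num
    rw [h2]
    have h3 : Real.exp 1 ≤ 2.7182818286 := Real.exp_one_lt_d9.le
    refine h3.trans ?_
    norm_num
  exact le_of_pow_le_pow_left₀ (by norm_num) (by norm_num) h1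

/-- `e^(-1/16) ≤ 0.93942` -/
private theorem exp_qi : Real.exp (-(1 / 16)) ≤ 93942 / 100000 := by
  have h1 : (100000 / 93942 : ℝ) ≤ Real.exp (1 / 16) := by
    have h1 : (100000 / 93942 : ℝ) ^ 16 ≤ Real.exp (1 / 16) ^ 16 := by
      rw [← Real.exp_nat_mul]
      have h2 : ((16 : ℕ) : ℝ) * (1 / 16) = 1 := by norm_num
      rw [h2]
      have h3 : 2.7182818283 ≤ Real.exp 1 := Real.exp_one_gt_d9.le
      refine le_trans ?_ h3
      norm_num
    exact le_of_pow_le_pow_left₀ (by norm_num) (Real.exp_pos _).le h1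
  rw [Real.exp_neg, inv_le_comm₀ (Real.exp_pos _) (by norm_num)]
  refine le_trans (le_of_eq ?_) h1
  norm_num

private theorem exp_upper {p : ℕ} (hp : 0 < p) :
    Real.exp (1000 / p) ≤ (10645 / 10000 : ℝ) ^ (16000 / p + 1) := by
  have hpR : (0 : ℝ) < p := by exact_mod_cast hp
  have h1 : (1000 : ℝ) / p ≤ ((16000 / p + 1 : ℕ) : ℝ) * (1 / 16) := by
    have h2 : 16000 < p * (16000 / p + 1) := Nat.lt_mul_div_succ 16000 hp
    have h3 : (16000 : ℝ) < p * ((16000 / p + 1 : ℕ) : ℝ) := by exact_mod_cast h2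
    rw [div_le_iff₀ hpR]
    nlinarith
  calc Real.exp (1000 / p) ≤ Real.exp (((16000 / p + 1 : ℕ) : ℝ) * (1 / 16)) :=
        Real.exp_le_exp.2 h1
    _ = Real.exp (1 / 16) ^ (16000 / p + 1) := by rw [Real.exp_nat_mul]
    _ ≤ _ := pow_le_pow_left₀ (Real.exp_pos _).le exp_q _

private theorem exp_lower {p : ℕ} (hp : 0 < p) :
    Real.exp (-(1000 / p)) ≤ (93942 / 100000 : ℝ) ^ (min (16000 / p) 160) := by
  have hpR : (0 : ℝ) < p := by exact_mod_cast hp
  have h1 : ((min (16000 / p) 160 : ℕ) : ℝ) * (1 / 16) ≤ (1000 : ℝ) / p := by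
    have h2 : min (16000 / p) 160 * p ≤ 16000 :=
      le_trans (Nat.mul_le_mul_right p (min_le_left _ _)) (Nat.div_mul_le_self 16000 p)
    have h3 : ((min (16000 / p) 160 : ℕ) : ℝ) * p ≤ 16000 := by exact_mod_cast h2
    rw [le_div_iff₀ hpR]
    linarith
  calc Real.exp (-(1000 / p)) ≤
        Real.exp (((min (16000 / p) 160 : ℕ) : ℝ) * (-(1 / 16))) :=
        Real.exp_le_exp.2 (by linarith)
    _ = Real.exp (-(1 / 16)) ^ (min (16000 / p) 160) := by rw [Real.exp_nat_mul]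
    _ ≤ _ := pow_le_pow_left₀ (Real.exp_pos _).le exp_qi _

private theorem r1 : ∏ p ∈ Pool.Agent.H97.WIter.T1,
    (2 / (p : ℚ) + (93942 / 100000) ^ (min (16000 / p) 160)) ≤ 3 / 10 ^ 86 := by
  decide +kernel

/-- the numbers `271 < n ≤ 1009` prime to all primes up to `31` -/
private def T3 : Finset ℕ := (Ioc 271 1009).filter (fun n => Nat.gcd n 200560490130 = 1)

private theorem r3 : ∏ p ∈ T3, (1 + 2 * ((10645 / 10000 : ℚ) ^ (16000 / p + 1) - 1) / p) ≤ 46 := by
  decide +kernel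

private theorem mem_T3 {p : ℕ} (hp : p.Prime) (h1 : 271 < p) (h2 : p ≤ 1009) : p ∈ T3 := by
  unfold T3
  rw [mem_filter, mem_Ioc]
  refine ⟨⟨h1, h2⟩, ?_⟩
  have h3 : Nat.Coprime p 200560490130 := by
    have h4 : 200560490130 = ∏ q ∈ ({2, 3, 5, 7, 11, 13, 17, 19, 23, 29, 31} : Finset ℕ), q := by
      decide +kernel
    rw [h4]
    apply Nat.Coprime.prod_right
    intro q hq
    have h5 : 2 ≤ q ∧ q ≤ 31 := by
      simp only [mem_insert, mem_singleton] at hq
      omega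
    refine (hp.coprime_iff_not_dvd).2 (fun hd => ?_)
    have := Nat.le_of_dvd (by omega) hd
    omega
  exact h3

private theorem pos_T3 {p : ℕ} (hp : p ∈ T3) : 0 < p := by
  unfold T3 at hp
  rw [mem_filter, mem_Ioc] at hp
  omega

/-- the primes up to `271` -/
private theorem part1 : ∏ p ∈ Pool.Agent.H97.WIter.T1, ff p ≤
    Real.exp 2000 * (3 / 10 ^ 86) := by
  have h1 : ∀ p ∈ Pool.Agent.H97.WIter.T1, ff p ≤ Real.exp (1000 * (1 / (p : ℝ))) *
      (2 / (p : ℝ) + (93942 / 100000) ^ (min (16000 / p) 160)) := by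
    intro p hp
    have h2 := Pool.Agent.H97.WIter.le_of_mem_T1 hp
    have hpR : (2 : ℝ) ≤ p := by exact_mod_cast h2.1
    have h3 := exp_lower (by omega : 0 < p)
    have h4 : Real.exp (1000 * (1 / (p : ℝ))) = Real.exp (1000 / p) := by
      rw [mul_one_div]
    rw [h4]
    have h5 : 0 < Real.exp (1000 / p) := Real.exp_pos _
    have h6 : Real.exp (1000 / p) * Real.exp (-(1000 / p)) = 1 := by
      rw [← Real.exp_add, add_neg_cancel, Real.exp_zero]
    have h7 : Real.exp (1000 / p) * Real.exp (-(1000 / p)) ≤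
        Real.exp (1000 / p) * (93942 / 100000 : ℝ) ^ (min (16000 / p) 160) :=
      mul_le_mul_of_nonneg_left h3 h5.le
    have h8 : 2 * (Real.exp (1000 / p) - 1) / (p : ℝ) ≤ Real.exp (1000 / p) * (2 / (p : ℝ)) := by
      have : Real.exp (1000 / p) * (2 / (p : ℝ)) - 2 * (Real.exp (1000 / p) - 1) / (p : ℝ) =
          2 / p := by ring
      have h9 : (0 : ℝ) ≤ 2 / p := by positivity
      linarith
    unfold ff
    rw [mul_add]
    linarith
  calc ∏ p ∈ Pool.Agent.H97.WIter.T1, ff p ≤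
        ∏ p ∈ Pool.Agent.H97.WIter.T1, Real.exp (1000 * (1 / (p : ℝ))) *
          (2 / (p : ℝ) + (93942 / 100000) ^ (min (16000 / p) 160)) :=
        prod_le_prod (fun p _ => le_trans zero_le_one (one_le_ff p)) h1
    _ = Real.exp (∑ p ∈ Pool.Agent.H97.WIter.T1, 1000 * (1 / (p : ℝ))) *
          ∏ p ∈ Pool.Agent.H97.WIter.T1,
            (2 / (p : ℝ) + (93942 / 100000) ^ (min (16000 / p) 160)) := by
        rw [prod_mul_distrib, Real.exp_sum]
    _ ≤ Real.exp 2000 * (3 / 10 ^ 86) := by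
        apply mul_le_mul _ _ (prod_nonneg fun p _ => by positivity) (Real.exp_pos _).le
        · apply Real.exp_le_exp.2
          rw [← mul_sum]
          have h2 := Pool.Agent.H97.WIter.sum_T1
          have h3 : ((∑ p ∈ Pool.Agent.H97.WIter.T1, 1 / (p : ℚ) : ℚ) : ℝ) < ((2 : ℚ) : ℝ) := by
            exact_mod_cast h2
          push_cast at h3
          linarith
        · have h2 : ((∏ p ∈ Pool.Agent.H97.WIter.T1,
              (2 / (p : ℚ) + (93942 / 100000) ^ (min (16000 / p) 160)) : ℚ) : ℝ) ≤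
              ((3 / 10 ^ 86 : ℚ) : ℝ) := by
            exact_mod_cast r1
          push_cast at h2
          exact h2

/-- the primes from `277` to `1009` -/
private theorem part3 : ∏ p ∈ T3, ff p ≤ 46 := by
  have h1 : ∀ p ∈ T3, ff p ≤
      1 + 2 * ((10645 / 10000 : ℝ) ^ (16000 / p + 1) - 1) / p := by
    intro p hp
    have h2 := exp_upper (pos_T3 hp)
    have hpR : (0 : ℝ) < p := by exact_mod_cast pos_T3 hp
    unfold ff
    have h3 : 2 * (Real.exp (1000 / p) - 1) / (p : ℝ) ≤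
        2 * ((10645 / 10000 : ℝ) ^ (16000 / p + 1) - 1) / p := by
      apply div_le_div_of_nonneg_right _ hpR.le
      linarith
    linarith
  have h2 : ((∏ p ∈ T3, (1 + 2 * ((10645 / 10000 : ℚ) ^ (16000 / p + 1) - 1) / p) : ℚ) : ℝ) ≤
      ((46 : ℚ) : ℝ) := by
    exact_mod_cast r3
  push_cast at h2
  exact (prod_le_prod (fun p _ => le_trans zero_le_one (one_le_ff p)) h1).trans h2

private theorem exp_sub_one_le {u : ℝ} (h0 : 0 ≤ u) (h1 : u ≤ 1) :
    Real.exp u - 1 ≤ 1.72 * u := by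
  have h2 := convexOn_exp.2 (Set.mem_univ (1 : ℝ)) (Set.mem_univ (0 : ℝ))
    h0 (show (0 : ℝ) ≤ 1 - u by linarith) (by ring)
  simp only [smul_eq_mul, mul_zero, add_zero, Real.exp_zero, mul_one] at h2
  have h3 : Real.exp 1 ≤ 2.7182818286 := Real.exp_one_lt_d9.le
  have h4 : u * Real.exp 1 ≤ u * 2.7182818286 := mul_le_mul_of_nonneg_left h3 h0
  linarith

/-- the primes above `1009` -/
private theorem part4 (z : ℕ) : ∏ p ∈ (Pz z).filter (fun p => 1009 < p), ff p ≤
    Real.exp (3440 / 1009) := by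
  have h1 : ∀ p ∈ (Pz z).filter (fun p => 1009 < p), ff p ≤
      Real.exp (3440 * ((p : ℝ) ^ 2)⁻¹) := by
    intro p hp
    rw [mem_filter] at hp
    have hpR : (1009 : ℝ) < p := by exact_mod_cast hp.2
    have hp0 : (0 : ℝ) < p := by linarith
    have h2 : (1000 : ℝ) / p ≤ 1 := by
      rw [div_le_iff₀ hp0]
      linarith
    have h3 := exp_sub_one_le (by positivity : (0 : ℝ) ≤ 1000 / p) h2
    have h4 : 2 * (Real.exp (1000 / p) - 1) / (p : ℝ) ≤ 3440 * ((p : ℝ) ^ 2)⁻¹ := by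
      rw [div_le_iff₀ hp0]
      calc 2 * (Real.exp (1000 / p) - 1) ≤ 2 * (1.72 * (1000 / p)) := by linarith
        _ = 3440 * ((p : ℝ) ^ 2)⁻¹ * p := by
          field_simp
          norm_num
    have h5 := Real.add_one_le_exp (3440 * ((p : ℝ) ^ 2)⁻¹)
    unfold ff
    linarith
  refine (prod_le_prod (fun p _ => le_trans zero_le_one (one_le_ff p)) h1).trans ?_
  rw [← Real.exp_sum, ← mul_sum]
  apply Real.exp_le_exp.2
  have h2 : ∑ p ∈ (Pz z).filter (fun p => 1009 < p), ((p : ℝ) ^ 2)⁻¹ ≤ (1009 : ℝ)⁻¹ := by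
    rcases Nat.lt_or_ge z 1009 with hz | hz
    · have : (Pz z).filter (fun p => 1009 < p) = ∅ := by
        apply filter_eq_empty_iff.2
        intro p hp
        have := (mem_Pz.1 hp).1
        omega
      rw [this, sum_empty]
      positivity
    · have hsub : (Pz z).filter (fun p => 1009 < p) ⊆ Ioc 1009 z := by
        intro p hp
        rw [mem_filter, mem_Pz] at hp
        rw [mem_Ioc]
        exact ⟨hp.2, hp.1.1⟩
      refine (sum_le_sum_of_subset_of_nonneg hsub (fun p _ _ => by positivity)).trans ?_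
      have h3 := sum_Ioc_inv_sq_le_sub (α := ℝ) (k := 1009) (n := z) (by norm_num) hz
      have h4 : (0 : ℝ) ≤ (z : ℝ)⁻¹ := by positivity
      push_cast at h3
      linarith
  calc 3440 * ∑ p ∈ (Pz z).filter (fun p => 1009 < p), ((p : ℝ) ^ 2)⁻¹ ≤ 3440 * (1009 : ℝ)⁻¹ :=
        mul_le_mul_of_nonneg_left h2 (by norm_num)
    _ = 3440 / 1009 := by ring

private theorem exp_9_2 : Real.exp (9 / 2) ≤ 91 := by
  have h1 : Real.exp (9 / 2) ^ 2 ≤ (91 : ℝ) ^ 2 := by
    rw [← Real.exp_nat_mul]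
    have h2 : ((2 : ℕ) : ℝ) * (9 / 2) = ((9 : ℕ) : ℝ) * 1 := by norm_num
    rw [h2, Real.exp_nat_mul]
    have h3 : Real.exp 1 ≤ 2.7182818286 := Real.exp_one_lt_d9.le
    calc Real.exp 1 ^ 9 ≤ (2.7182818286 : ℝ) ^ 9 := pow_le_pow_left₀ (Real.exp_pos _).le h3 9
      _ ≤ 91 ^ 2 := by norm_num
  exact le_of_pow_le_pow_left₀ (by norm_num) (by norm_num) h1

theorem num_le80 (z : ℕ) :
    Real.exp (-1999) * ∏ p ∈ Pz z, (1 + 2 * (Real.exp (1000 / p) - 1) / p) ≤
      1 / (24 * 10 ^ 80) := by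
  have h0 : ∏ p ∈ Pz z, (1 + 2 * (Real.exp (1000 / p) - 1) / p) = ∏ p ∈ Pz z, ff p := rfl
  rw [h0, ← prod_filter_mul_prod_filter_not (Pz z) (fun p => 1009 < p),
    ← prod_filter_mul_prod_filter_not ((Pz z).filter (fun p => ¬ 1009 < p)) (fun p => 271 < p)]
  have h1 : ∏ p ∈ ((Pz z).filter (fun p => ¬ 1009 < p)).filter (fun p => 271 < p), ff p ≤ 46 := by
    refine (prod_ff_mono ?_).trans part3
    intro p hp
    rw [mem_filter, mem_filter, mem_Pz] at hp
    exact mem_T3 hp.1.1.2 hp.2 (by omega)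
  have h2 : ∏ p ∈ ((Pz z).filter (fun p => ¬ 1009 < p)).filter (fun p => ¬ 271 < p), ff p ≤
      Real.exp 2000 * (3 / 10 ^ 86) := by
    refine (prod_ff_mono ?_).trans part1
    intro p hp
    rw [mem_filter, mem_filter, mem_Pz] at hp
    exact Pool.Agent.H97.WIter.mem_T1 hp.1.1.2 (by omega)
  have h3 := part4 z
  have hnn : ∀ S : Finset ℕ, 0 ≤ ∏ p ∈ S, ff p := fun S => le_trans zero_le_one (one_le_prod_ff S)
  calc Real.exp (-1999) * ((∏ p ∈ (Pz z).filter (fun p => 1009 < p), ff p) *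
        ((∏ p ∈ ((Pz z).filter (fun p => ¬ 1009 < p)).filter (fun p => 271 < p), ff p) *
          ∏ p ∈ ((Pz z).filter (fun p => ¬ 1009 < p)).filter (fun p => ¬ 271 < p), ff p))
      ≤ Real.exp (-1999) * (Real.exp (3440 / 1009) * (46 * (Real.exp 2000 * (3 / 10 ^ 86)))) := by
        apply mul_le_mul_of_nonneg_left _ (Real.exp_pos _).le
        apply mul_le_mul h3 _ (mul_nonneg (hnn _) (hnn _)) (Real.exp_pos _).le
        exact mul_le_mul h1 h2 (hnn _) (by norm_num)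
    _ = Real.exp (-1999 + 3440 / 1009 + 2000) * (138 / 10 ^ 86) := by
        rw [Real.exp_add, Real.exp_add]
        ring
    _ ≤ Real.exp (9 / 2) * (138 / 10 ^ 86) := by
        apply mul_le_mul_of_nonneg_right _ (by norm_num)
        exact Real.exp_le_exp.2 (by norm_num)
    _ ≤ 91 * (138 / 10 ^ 86) := mul_le_mul_of_nonneg_right exp_9_2 (by norm_num)
    _ ≤ 1 / (24 * 10 ^ 80) := by norm_num

end Pool.Agent.H31.DD
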