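import Pool.Agent.H31.DD.Mean
import Pool.Agent.H31.DD.Arith
import Pool.Agent.H31.DD.Cls

/-!
# DD Tail: the primes `p > z`

`ws_tail`: for large `N` one has `⌊log N⌋ ≤ ⌊N^δ⌋ < P`, so a prime `p ≤ log N` dividing
`m P w(m P)` divides `m` or (then not `m`) `w(m) P + m`. `cls` with `d = 1`: `∑_P log P ≤ 2 N / m`;
with `d = p` prime to `m`: `≤ 2 (N / m) / (p - 1)`. Sum over `m` (`sum_inv_dvd`) and over `p > z`:
`∑ 1 / p² ≤ 1 / z`, `∑ 1 / (p (p - 1)) ≤ 1 / z`.
`tail_far`: the number `k` of primes `p > log N` dividing `n w(n) ≤ N³` (`w(n) ≤ n²`) has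
`(log N)^k ≤ N³`, so the sum is at most `k / log N ≤ 3 / log log N`.
-/

set_option autoImplicit false

namespace Pool.Agent.H31.DD

open Finset
open Pool.Agent.H97.WIter (wf)

private theorem tele (z v : ℕ) (hz : 1 ≤ z) (hv : z ≤ v) :
    ∑ p ∈ Ioc z v, (1 : ℝ) / (p * (p - 1)) = 1 / z - 1 / v := by
  induction v, hv using Nat.le_induction with
  | base => simp
  | succ n hn ih =>
    rw [← Finset.insert_Ioc_right_eq_Ioc_add_one hn, sum_insert (by simp), ih]
    have h1 : (0 : ℝ) < n := by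
      have : 0 < n := by omega
      exact_mod_cast this
    have h2 : (0 : ℝ) < z := by
      have : 0 < z := by omega
      exact_mod_cast this
    push_cast
    have h3 : (n : ℝ) + 1 - 1 = n := by ring
    rw [h3]
    field_simp
    ring

/-- the sum of `1 / (p (p - 1))` over `p > z` -/
private theorem sum_far (z v : ℕ) (hz : 1 ≤ z) :
    ∑ p ∈ Ioc z v, (1 : ℝ) / (p * (p - 1)) ≤ 1 / z := by
  rcases le_total z v with h | h
  · rw [tele z v hz h]
    have : (0 : ℝ) ≤ 1 / v := by positivity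
    linarith
  · rw [Ioc_eq_empty_of_le h, sum_empty]
    positivity

/-- pointwise: the primes dividing `n w(n)`, `n = m P`, below `P` -/
private theorem rcp_le (z v m P : ℕ) (hm : 1 ≤ m) (hP : P.Prime) (h : ¬ P ∣ m) (hv : v < P) :
    rcp z v (m * P * wf (m * P)) ≤
      ∑ p ∈ (Ioc z v).filter Nat.Prime, ((1 : ℝ) / p * (if p ∣ m then 1 else 0) +
        (1 : ℝ) / p * (if ¬ p ∣ m ∧ p ∣ wf m * P + m then 1 else 0)) := by
  unfold rcp
  have hw := wf_mul_prime m P hm hP h
  have hsub : (m * P * wf (m * P)).primeFactors.filter (fun p => z < p ∧ p ≤ v) ⊆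
      (Ioc z v).filter Nat.Prime := by
    intro p hp
    rw [mem_filter] at hp
    rw [mem_filter, mem_Ioc]
    exact ⟨hp.2, Nat.prime_of_mem_primeFactors hp.1⟩
  refine le_trans (sum_le_sum (g := fun p : ℕ => (1 : ℝ) / p * (if p ∣ m then 1 else 0) +
        (1 : ℝ) / p * (if ¬ p ∣ m ∧ p ∣ wf m * P + m then 1 else 0)) ?_)
    (sum_le_sum_of_subset_of_nonneg hsub ?_)
  · intro p hp
    rw [mem_filter] at hp
    have hpp := Nat.prime_of_mem_primeFactors hp.1
    have hd := Nat.dvd_of_mem_primeFactors hp.1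
    have hpos : (0 : ℝ) ≤ 1 / p := by positivity
    by_cases hpm : p ∣ m
    · simp [hpm]
    · have h2 : p ∣ wf m * P + m := by
        rcases (hpp.dvd_mul).1 hd with h1 | h1
        · rcases (hpp.dvd_mul).1 h1 with h2 | h2
          · exact absurd h2 hpm
          · have := (Nat.prime_dvd_prime_iff_eq hpp hP).1 h2
            omega
        · rwa [hw] at h1
      simp [hpm, h2]
  · intro p _ _
    have hpos : (0 : ℝ) ≤ 1 / p := by positivity
    have e1 : (0 : ℝ) ≤ (if p ∣ m then 1 else 0) := by split_ifs <;> norm_num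
    have e2 : (0 : ℝ) ≤ (if ¬ p ∣ m ∧ p ∣ wf m * P + m then 1 else 0) := by
      split_ifs <;> norm_num
    have := mul_nonneg hpos e1
    have := mul_nonneg hpos e2
    linarith

/-- the inner sum over `P` for one `m` -/
private theorem inner_le (z v N y m : ℕ) (hm : 1 ≤ m) (hvy : v ≤ y)
    (hcls : ∀ x d a b : ℕ, x ≤ N → 1 ≤ d → d ≤ max 1 v → Nat.Coprime d b →
      ∑ P ∈ (Ioc y x).filter (fun P => P.Prime ∧ d ∣ a * P + b), Real.log P ≤
        2 * x / (d.totient : ℝ)) :
    ∑ P ∈ (Ioc y (N / m)).filter (fun P => P.Prime ∧ ¬ P ∣ m),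
      rcp z v (m * P * wf (m * P)) * Real.log P ≤
      ∑ p ∈ (Ioc z v).filter Nat.Prime, (2 * (N : ℝ) / p * ((if p ∣ m then 1 else 0) / m) +
        2 * N / (p * (p - 1)) * (1 / m)) := by
  have hm0 : (0 : ℝ) < m := by exact_mod_cast hm
  have hx : N / m ≤ N := Nat.div_le_self _ _
  have hxr : ((N / m : ℕ) : ℝ) ≤ N / m := Nat.cast_div_le
  have hlog : ∀ P : ℕ, 0 ≤ Real.log P := fun P => Real.log_natCast_nonneg P
  -- step 1: pointwise
  have h1 : ∑ P ∈ (Ioc y (N / m)).filter (fun P => P.Prime ∧ ¬ P ∣ m),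
      rcp z v (m * P * wf (m * P)) * Real.log P ≤
      ∑ P ∈ (Ioc y (N / m)).filter (fun P => P.Prime ∧ ¬ P ∣ m),
        ∑ p ∈ (Ioc z v).filter Nat.Prime, ((1 : ℝ) / p * (if p ∣ m then 1 else 0) +
        (1 : ℝ) / p * (if ¬ p ∣ m ∧ p ∣ wf m * P + m then 1 else 0)) * Real.log P := by
    apply sum_le_sum
    intro P hP
    rw [mem_filter, mem_Ioc] at hP
    rw [← sum_mul]
    exact mul_le_mul_of_nonneg_right (rcp_le z v m P hm hP.2.1 hP.2.2 (by omega)) (hlog P)
  refine h1.trans ?_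
  rw [sum_comm]
  apply sum_le_sum
  intro p hp
  rw [mem_filter, mem_Ioc] at hp
  have hpp := hp.2
  have hp2 : (2 : ℝ) ≤ p := by exact_mod_cast hpp.two_le
  have hppos : (0 : ℝ) < p := by linarith
  have h2 : ∀ P : ℕ, ((1 : ℝ) / p * (if p ∣ m then 1 else 0) +
        (1 : ℝ) / p * (if ¬ p ∣ m ∧ p ∣ wf m * P + m then 1 else 0)) * Real.log P =
      (1 : ℝ) / p * (if p ∣ m then 1 else 0) * Real.log P +
        (1 : ℝ) / p * ((if ¬ p ∣ m ∧ p ∣ wf m * P + m then 1 else 0) * Real.log P) := by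
    intro P; ring
  rw [sum_congr rfl (fun P _ => h2 P), sum_add_distrib, ← mul_sum, ← mul_sum]
  apply add_le_add
  · have h3 : ∑ P ∈ (Ioc y (N / m)).filter (fun P => P.Prime ∧ ¬ P ∣ m), Real.log P ≤
        2 * (N / m) := by
      have h4 := hcls (N / m) 1 (wf m) m hx le_rfl (le_max_left _ _) (Nat.coprime_one_left m)
      rw [Nat.totient_one, Nat.cast_one, div_one] at h4
      have h5 : ∑ P ∈ (Ioc y (N / m)).filter (fun P => P.Prime ∧ ¬ P ∣ m), Real.log P ≤
          ∑ P ∈ (Ioc y (N / m)).filter (fun P => P.Prime ∧ 1 ∣ wf m * P + m), Real.log P := by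
        apply sum_le_sum_of_subset_of_nonneg
        · intro P hP
          rw [mem_filter] at hP ⊢
          exact ⟨hP.1, hP.2.1, one_dvd _⟩
        · intro P _ _
          exact hlog P
      linarith
    have hc : (0 : ℝ) ≤ 1 / p * (if p ∣ m then 1 else 0) := by
      apply mul_nonneg (by positivity)
      split_ifs <;> norm_num
    calc (1 : ℝ) / p * (if p ∣ m then 1 else 0) *
          ∑ P ∈ (Ioc y (N / m)).filter (fun P => P.Prime ∧ ¬ P ∣ m), Real.log P
        ≤ (1 : ℝ) / p * (if p ∣ m then 1 else 0) * (2 * (N / m)) :=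
          mul_le_mul_of_nonneg_left h3 hc
      _ = 2 * N / p * ((if p ∣ m then 1 else 0) / m) := by
          field_simp
  · have h3 : ∑ P ∈ (Ioc y (N / m)).filter (fun P => P.Prime ∧ ¬ P ∣ m),
        (if ¬ p ∣ m ∧ p ∣ wf m * P + m then (1 : ℝ) else 0) * Real.log P ≤
        2 * (N / m) / (p - 1) := by
      by_cases hpm : p ∣ m
      · have : ∀ P : ℕ, (if ¬ p ∣ m ∧ p ∣ wf m * P + m then (1 : ℝ) else 0) * Real.log P = 0 := by
          intro P
          rw [if_neg (fun hh => hh.1 hpm), zero_mul]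
        rw [sum_congr rfl (fun P _ => this P), sum_const_zero]
        have : (0 : ℝ) ≤ p - 1 := by linarith
        positivity
      · have hcop : Nat.Coprime p m := (Nat.Prime.coprime_iff_not_dvd hpp).2 hpm
        have h4 := hcls (N / m) p (wf m) m hx hpp.one_lt.le (le_max_of_le_right hp.1.2) hcop
        rw [Nat.totient_prime hpp, Nat.cast_sub hpp.one_lt.le, Nat.cast_one] at h4
        have h5 : ∑ P ∈ (Ioc y (N / m)).filter (fun P => P.Prime ∧ ¬ P ∣ m),
            (if ¬ p ∣ m ∧ p ∣ wf m * P + m then (1 : ℝ) else 0) * Real.log P ≤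
            ∑ P ∈ (Ioc y (N / m)).filter (fun P => P.Prime ∧ p ∣ wf m * P + m), Real.log P := by
          have h6 : ∀ P : ℕ, (if ¬ p ∣ m ∧ p ∣ wf m * P + m then (1 : ℝ) else 0) * Real.log P =
              if ¬ p ∣ m ∧ p ∣ wf m * P + m then Real.log P else 0 := by
            intro P; split_ifs <;> simp
          rw [sum_congr rfl (fun P _ => h6 P), ← sum_filter, filter_filter]
          apply sum_le_sum_of_subset_of_nonneg
          · intro P hP
            rw [mem_filter] at hP ⊢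
            exact ⟨hP.1, hP.2.1.1, hP.2.2.2⟩
          · intro P _ _
            exact hlog P
        refine h5.trans (h4.trans ?_)
        have : (0 : ℝ) < p - 1 := by linarith
        gcongr
    calc (1 : ℝ) / p * ∑ P ∈ (Ioc y (N / m)).filter (fun P => P.Prime ∧ ¬ P ∣ m),
          (if ¬ p ∣ m ∧ p ∣ wf m * P + m then (1 : ℝ) else 0) * Real.log P
        ≤ (1 : ℝ) / p * (2 * (N / m) / (p - 1)) :=
          mul_le_mul_of_nonneg_left h3 (by positivity)
      _ = 2 * N / (p * (p - 1)) * (1 / m) := by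
          have : (p : ℝ) - 1 ≠ 0 := by
            have : (0 : ℝ) < p - 1 := by linarith
            exact this.ne'
          field_simp

theorem ws_tail (δ : ℝ) (hδ : 0 < δ) (z : ℕ) (hz : 1 ≤ z) : ∃ N0 : ℕ, ∀ N : ℕ, N0 ≤ N →
    WS N (yy δ N) (fun n => rcp z ⌊Real.log N⌋₊ (n * wf n)) ≤
      4 * N * (1 + Real.log N) / z := by
  obtain ⟨N1, hN1⟩ := cls δ hδ
  have hlo := (isLittleO_log_rpow_atTop hδ).bound (show (0 : ℝ) < 1 by norm_num)
  rw [Filter.eventually_atTop] at hlo
  obtain ⟨A, hA⟩ := hlo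
  refine ⟨max N1 (max 3 ⌈A⌉₊), ?_⟩
  intro N hN
  have hN1' : N1 ≤ N := le_trans (le_max_left _ _) hN
  have hN3 : 3 ≤ N := le_trans (le_max_left _ _) (le_trans (le_max_right _ _) hN)
  have hNA : A ≤ N := by
    have : ⌈A⌉₊ ≤ N := le_trans (le_max_right _ _) (le_trans (le_max_right _ _) hN)
    exact Nat.ceil_le.1 this
  have hN0 : (0 : ℝ) < N := by
    have : 0 < N := by omega
    exact_mod_cast this
  have hlog1 : 1 ≤ Real.log N := by
    rw [Real.le_log_iff_exp_le hN0]
    have := Real.exp_one_lt_d9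
    have h3 : (3 : ℝ) ≤ N := by exact_mod_cast hN3
    linarith
  set v : ℕ := ⌊Real.log N⌋₊ with hv
  have hvl : (v : ℝ) ≤ Real.log N := Nat.floor_le (by linarith)
  have hvy : v ≤ yy δ N := by
    unfold yy
    apply Nat.floor_le_floor
    have h := hA N hNA
    rw [one_mul, Real.norm_of_nonneg (by linarith), Real.norm_of_nonneg (by positivity)] at h
    exact h
  have hcls : ∀ x d a b : ℕ, x ≤ N → 1 ≤ d → d ≤ max 1 v → Nat.Coprime d b →
      ∑ P ∈ (Ioc (yy δ N) x).filter (fun P => P.Prime ∧ d ∣ a * P + b), Real.log P ≤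
        2 * x / (d.totient : ℝ) := by
    intro x d a b hx hd hdv hco
    apply hN1 N hN1' x d a b hx hd _ hco
    rcases le_max_iff.1 hdv with h | h
    · have : (d : ℝ) ≤ 1 := by exact_mod_cast h
      linarith
    · have : (d : ℝ) ≤ v := by exact_mod_cast h
      linarith
  unfold WS
  have h1 : ∑ m ∈ Icc 1 N, ∑ P ∈ (Ioc (yy δ N) (N / m)).filter (fun P => P.Prime ∧ ¬ P ∣ m),
      rcp z v (m * P * wf (m * P)) * Real.log P ≤
      ∑ m ∈ Icc 1 N, ∑ p ∈ (Ioc z v).filter Nat.Prime,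
        (2 * N / p * ((if p ∣ m then 1 else 0) / m) + 2 * N / (p * (p - 1)) * ((1 : ℝ) / m)) := by
    apply sum_le_sum
    intro m hm
    rw [mem_Icc] at hm
    exact inner_le z v N (yy δ N) m hm.1 hvy hcls
  refine h1.trans ?_
  rw [sum_comm]
  have h2 : ∀ p ∈ (Ioc z v).filter Nat.Prime, ∑ m ∈ Icc 1 N,
      (2 * N / p * ((if p ∣ m then 1 else 0) / m) + 2 * N / (p * (p - 1)) * ((1 : ℝ) / m)) ≤
      4 * N * (1 + Real.log N) * (1 / (p * (p - 1))) := by
    intro p hp
    rw [mem_filter, mem_Ioc] at hp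
    have hp2 : (2 : ℝ) ≤ p := by exact_mod_cast hp.2.two_le
    have hppos : (0 : ℝ) < p := by linarith
    have hp1 : (0 : ℝ) < p - 1 := by linarith
    rw [sum_add_distrib, ← mul_sum, ← mul_sum]
    have e1 : ∑ m ∈ Icc 1 N, (if p ∣ m then (1 : ℝ) else 0) / m ≤ (1 + Real.log N) / p := by
      have h := sum_inv_dvd N p (by omega) hp.2.one_lt.le
      rw [sum_filter] at h
      refine le_trans (le_of_eq ?_) h
      apply sum_congr rfl
      intro m _
      split_ifs <;> simp
    have e2 : ∑ m ∈ Icc 1 N, (1 : ℝ) / m ≤ 1 + Real.log N := by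
      have h := sum_inv_dvd N 1 (by omega) le_rfl
      rw [Nat.cast_one, div_one] at h
      refine le_trans (le_of_eq ?_) h
      apply sum_congr _ (fun _ _ => rfl)
      ext m
      simp
    have hL : (0 : ℝ) ≤ 1 + Real.log N := by linarith
    calc 2 * N / p * ∑ m ∈ Icc 1 N, (if p ∣ m then (1 : ℝ) else 0) / m +
          2 * N / (p * (p - 1)) * ∑ m ∈ Icc 1 N, (1 : ℝ) / m
        ≤ 2 * N / p * ((1 + Real.log N) / p) + 2 * N / (p * (p - 1)) * (1 + Real.log N) := by
          gcongr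
      _ = 2 * N * (1 + Real.log N) * (1 / (p * p)) +
          2 * N * (1 + Real.log N) * (1 / (p * (p - 1))) := by
          field_simp
      _ ≤ 2 * N * (1 + Real.log N) * (1 / (p * (p - 1))) +
          2 * N * (1 + Real.log N) * (1 / (p * (p - 1))) := by
          gcongr
          linarith
      _ = 4 * N * (1 + Real.log N) * (1 / (p * (p - 1))) := by ring
  refine (sum_le_sum h2).trans ?_
  rw [← mul_sum]
  have h3 : ∑ p ∈ (Ioc z v).filter Nat.Prime, (1 : ℝ) / (p * (p - 1)) ≤ 1 / z := by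
    refine le_trans (sum_le_sum_of_subset_of_nonneg (filter_subset _ _) ?_) (sum_far z v hz)
    intro p hp _
    rw [mem_Ioc] at hp
    have : (1 : ℝ) ≤ p := by
      have : 1 ≤ p := by omega
      exact_mod_cast this
    have : (0 : ℝ) ≤ p - 1 := by linarith
    positivity
  calc 4 * N * (1 + Real.log N) * ∑ p ∈ (Ioc z v).filter Nat.Prime, (1 : ℝ) / (p * (p - 1))
      ≤ 4 * N * (1 + Real.log N) * (1 / z) := by
        apply mul_le_mul_of_nonneg_left h3
        have : (0 : ℝ) ≤ 1 + Real.log N := by linarith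
        positivity
    _ = 4 * N * (1 + Real.log N) / z := by ring

private theorem wf_le_sq (n : ℕ) : wf n ≤ n ^ 2 := by
  unfold Pool.Agent.H97.WIter.wf
  calc ∑ p ∈ n.primeFactors, n / p ^ (n.factorization p) ≤ ∑ _p ∈ n.primeFactors, n :=
        sum_le_sum (fun p _ => Nat.div_le_self _ _)
    _ = n.primeFactors.card * n := by rw [sum_const, smul_eq_mul]
    _ ≤ n * n := by
        apply Nat.mul_le_mul_right
        calc n.primeFactors.card ≤ (Ioc 0 n).card := by
              apply card_le_card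
              intro p hp
              rw [mem_Ioc]
              exact ⟨(Nat.prime_of_mem_primeFactors hp).pos, Nat.le_of_mem_primeFactors hp⟩
          _ = n := by simp
    _ = n ^ 2 := by ring

theorem tail_far (ε : ℝ) (hε : 0 < ε) : ∃ N0 : ℕ, ∀ N : ℕ, N0 ≤ N → ∀ n : ℕ, 2 ≤ n → n ≤ N →
    ∑ p ∈ (n * wf n).primeFactors.filter (fun p => ⌊Real.log N⌋₊ < p), (1 : ℝ) / p ≤ ε := by
  have hll : Filter.Tendsto (fun x : ℝ => Real.log (Real.log x)) Filter.atTop Filter.atTop :=
    Real.tendsto_log_atTop.comp Real.tendsto_log_atTop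
  have hev := hll.eventually_ge_atTop (max 1 (3 / ε))
  rw [Filter.eventually_atTop] at hev
  obtain ⟨A, hA⟩ := hev
  refine ⟨max 3 ⌈A⌉₊, ?_⟩
  intro N hN n hn2 hnN
  have hN3 : 3 ≤ N := le_trans (le_max_left _ _) hN
  have hNA : A ≤ N := Nat.ceil_le.1 (le_trans (le_max_right _ _) hN)
  have hN0 : (0 : ℝ) < N := by
    have : 0 < N := by omega
    exact_mod_cast this
  have hlog1 : 1 ≤ Real.log N := by
    rw [Real.le_log_iff_exp_le hN0]
    have := Real.exp_one_lt_d9
    have h3 : (3 : ℝ) ≤ N := by exact_mod_cast hN3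
    linarith
  have hLpos : 0 < Real.log N := by linarith
  have hLL := hA N hNA
  have hLL1 : 1 ≤ Real.log (Real.log N) := le_trans (le_max_left _ _) hLL
  have hLL2 : 3 / ε ≤ Real.log (Real.log N) := le_trans (le_max_right _ _) hLL
  set S := (n * wf n).primeFactors.filter (fun p => ⌊Real.log N⌋₊ < p) with hS
  have hmem : ∀ p ∈ S, Real.log N ≤ p := by
    intro p hp
    rw [hS, mem_filter] at hp
    have h1 := Nat.lt_floor_add_one (Real.log N)
    have h2 : ((⌊Real.log N⌋₊ + 1 : ℕ) : ℝ) ≤ p := by exact_mod_cast hp.2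
    push_cast at h2
    linarith
  have hne : n * wf n ≠ 0 := by
    have := Pool.Agent.H97.WIter.wf_pos hn2
    exact Nat.mul_ne_zero (by omega) (by omega)
  have hprod : ∏ p ∈ S, p ≤ N ^ 3 := by
    have h1 : ∏ p ∈ S, p ∣ n * wf n := by
      apply dvd_trans (prod_dvd_prod_of_subset _ _ _ (filter_subset _ _))
      exact Nat.prod_primeFactors_dvd _
    have h2 := Nat.le_of_dvd (Nat.pos_of_ne_zero hne) h1
    calc ∏ p ∈ S, p ≤ n * wf n := h2
      _ ≤ n * n ^ 2 := Nat.mul_le_mul_left _ (wf_le_sq n)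
      _ = n ^ 3 := by ring
      _ ≤ N ^ 3 := Nat.pow_le_pow_left hnN 3
  have hcard : (S.card : ℝ) * Real.log (Real.log N) ≤ 3 * Real.log N := by
    have h1 : (Real.log N) ^ S.card ≤ (N : ℝ) ^ 3 := by
      calc (Real.log N) ^ S.card = ∏ _p ∈ S, Real.log N := by rw [prod_const]
        _ ≤ ∏ p ∈ S, (p : ℝ) := prod_le_prod (fun _ _ => hLpos.le) hmem
        _ = ((∏ p ∈ S, p : ℕ) : ℝ) := by push_cast; rfl
        _ ≤ (N : ℝ) ^ 3 := by exact_mod_cast hprod
    have h2 := Real.log_le_log (by positivity) h1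
    rw [Real.log_pow, Real.log_pow] at h2
    exact_mod_cast h2
  have hsum : ∑ p ∈ S, (1 : ℝ) / p ≤ S.card * (1 / Real.log N) := by
    rw [← nsmul_eq_mul]
    apply sum_le_card_nsmul
    intro p hp
    exact one_div_le_one_div_of_le hLpos (hmem p hp)
  refine hsum.trans ?_
  have h3 : 3 ≤ ε * Real.log (Real.log N) := by
    rw [div_le_iff₀ hε] at hLL2
    linarith
  rw [mul_one_div, div_le_iff₀ hLpos]
  have h4 : (S.card : ℝ) * Real.log (Real.log N) ≤ ε * Real.log N * Real.log (Real.log N) := by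
    calc (S.card : ℝ) * Real.log (Real.log N) ≤ 3 * Real.log N := hcard
      _ ≤ (ε * Real.log (Real.log N)) * Real.log N := mul_le_mul_of_nonneg_right h3 hLpos.le
      _ = ε * Real.log N * Real.log (Real.log N) := by ring
  exact le_of_mul_le_mul_right h4 (by linarith)

end Pool.Agent.H31.DD
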