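import Pool.Agent.H31.DD.Defs

/-!
# DD Wt: from the good `n` to the weighted sum

For a good `n ≤ N` one has `(log N / 2) f(n) ≤ ∑_(P ∣ n, P > y) f(n) log P`; write `n = m P`,
`m = n / P ∈ Icc 1 N`, `P ≤ N / m`, and `P` does not divide `m` because `P² ∤ n`. The map
`(n, P) ↦ (n / P, P)` is injective (`Finset.sum_sigma'`, `Finset.sum_image`).
-/

set_option autoImplicit false

namespace Pool.Agent.H31.DD

open Finset

open Classical in
theorem wt_le (N y : ℕ) (f : ℕ → ℝ) (hf : ∀ n, 0 ≤ f n) :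
    (∑ n ∈ (Icc 1 N).filter (fun n => Good N y n), f n) * (Real.log N / 2) ≤ WS N y f := by
  set A : Finset ℕ := (Icc 1 N).filter (fun n => Good N y n) with hA
  have h1 : (∑ n ∈ A, f n) * (Real.log N / 2)
      ≤ ∑ n ∈ A, ∑ p ∈ n.primeFactors.filter (fun p => y < p), f n * Real.log p := by
    rw [Finset.sum_mul]
    refine Finset.sum_le_sum fun n hn => ?_
    have hg : Good N y n := (mem_filter.mp hn).2
    have h2 := mul_le_mul_of_nonneg_left hg.1 (hf n)
    unfold big at h2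
    rw [Finset.mul_sum] at h2
    exact h2
  refine h1.trans ?_
  unfold WS
  rw [Finset.sum_sigma', Finset.sum_sigma']
  set S : Finset (Σ _ : ℕ, ℕ) := A.sigma (fun n => n.primeFactors.filter (fun p => y < p)) with hS
  set T : Finset (Σ _ : ℕ, ℕ) := (Icc 1 N).sigma
    (fun m => (Ioc y (N / m)).filter (fun P => P.Prime ∧ ¬ P ∣ m)) with hT
  let g : (Σ _ : ℕ, ℕ) → (Σ _ : ℕ, ℕ) := fun x => ⟨x.1 / x.2, x.2⟩
  have hmem : ∀ x ∈ S, x.1 ∈ Icc 1 N ∧ Good N y x.1 ∧ x.2.Prime ∧ x.2 ∣ x.1 ∧ y < x.2 := by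
    intro x hx
    rw [hS, mem_sigma, hA, mem_filter, mem_filter, Nat.mem_primeFactors] at hx
    exact ⟨hx.1.1, hx.1.2, hx.2.1.1, hx.2.1.2.1, hx.2.2⟩
  have hinj : Set.InjOn g (S : Set (Σ _ : ℕ, ℕ)) := by
    rintro ⟨n, p⟩ hx ⟨n', p'⟩ hx' h
    have hx1 := hmem _ (by exact_mod_cast hx)
    have hx2 := hmem _ (by exact_mod_cast hx')
    simp only [g, Sigma.mk.injEq, heq_eq_eq] at h
    obtain ⟨h3, rfl⟩ := h
    have h4 : n = n' := by
      have e1 : n / p * p = n := Nat.div_mul_cancel hx1.2.2.2.1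
      have e2 : n' / p * p = n' := Nat.div_mul_cancel hx2.2.2.2.1
      rw [← e1, ← e2, h3]
    subst h4
    rfl
  have h5 : ∑ x ∈ S, f x.1 * Real.log x.2 = ∑ x ∈ S.image g, f (x.1 * x.2) * Real.log x.2 := by
    rw [Finset.sum_image hinj]
    refine Finset.sum_congr rfl fun x hx => ?_
    have h6 : x.1 / x.2 * x.2 = x.1 := Nat.div_mul_cancel (hmem x hx).2.2.2.1
    simp only [g]
    rw [h6]
  rw [h5]
  refine Finset.sum_le_sum_of_subset_of_nonneg ?_ ?_
  · intro z hz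
    obtain ⟨x, hx, rfl⟩ := mem_image.mp hz
    obtain ⟨hxN, hg, hp, hd, hy⟩ := hmem x hx
    rw [mem_Icc] at hxN
    obtain ⟨m, hm⟩ := hd
    have hm' : x.1 / x.2 = m := by rw [hm]; exact Nat.mul_div_cancel_left m hp.pos
    have hm0 : 0 < m := by
      rcases Nat.eq_zero_or_pos m with h | h
      · rw [h, mul_zero] at hm; omega
      · exact h
    have hmN : m ≤ N := by
      have : m ≤ x.1 := by rw [hm]; exact Nat.le_mul_of_pos_left m hp.pos
      omega
    rw [hT, mem_sigma, mem_filter, mem_Ioc, mem_Icc]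
    simp only [g]
    rw [hm']
    refine ⟨⟨hm0, hmN⟩, ⟨hy, ?_⟩, hp, ?_⟩
    · rw [Nat.le_div_iff_mul_le hm0, ← hm]
      exact hxN.2
    · rintro ⟨k, hk⟩
      refine hg.2 x.2 hp hy ⟨k, ?_⟩
      rw [hm, hk]
      ring
  · intro x _ _
    exact mul_nonneg (hf _) (Real.log_natCast_nonneg _)

end Pool.Agent.H31.DD
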