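import Pool.Agent.H31.DD.Defs

/-!
# DD Mean: the mean value of `GG`

With `1 + h p = (1 + x p) / (1 + x p / (p - 1))`, `h p ≥ 0`:
`GG(m) = ∏_(p ∈ Pz z) (1 + x p / (p - 1)) · ∏_(p ∣ m) (1 + h p)`, expand the second product over the
sets `S` of primes dividing `m` (`Finset.prod_one_add`), `∑_(m ≤ N, d ∣ m) 1 / m ≤ (1 + log N) / d`,
and `(1 + x p / (p - 1)) (1 + h p / p) = 1 + 2 x p / p`.
-/

set_option autoImplicit false

namespace Pool.Agent.H31.DD

open Finset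

theorem sum_inv_dvd (N d : ℕ) (hN : 1 ≤ N) (hd : 1 ≤ d) :
    ∑ m ∈ (Icc 1 N).filter (fun m => d ∣ m), (1 : ℝ) / m ≤ (1 + Real.log N) / d := by
  have hd0 : (0 : ℝ) < d := by exact_mod_cast hd
  have h1 : ∀ m ∈ (Icc 1 N).filter (fun m => d ∣ m), (1 : ℝ) / m = 1 / d * (1 / ((m / d : ℕ) : ℝ)) := by
    intro m hm
    obtain ⟨h2, k, rfl⟩ := mem_filter.1 hm
    rw [Nat.mul_div_cancel_left k hd]
    push_cast
    rw [one_div_mul_one_div]
  have hinj : Set.InjOn (fun m : ℕ => m / d) ((Icc 1 N).filter (fun m => d ∣ m) : Set ℕ) := by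
    intro m hm m' hm' h
    have h2 := (mem_filter.1 (mem_coe.1 hm)).2
    have h3 := (mem_filter.1 (mem_coe.1 hm')).2
    rw [← Nat.div_mul_cancel h2, ← Nat.div_mul_cancel h3]
    exact congrArg (fun k => k * d) h
  have hsub : ((Icc 1 N).filter (fun m => d ∣ m)).image (fun m => m / d) ⊆ Icc 1 N := by
    intro k hk
    obtain ⟨m, hm, rfl⟩ := mem_image.1 hk
    obtain ⟨h2, h3⟩ := mem_filter.1 hm
    obtain ⟨h4, h5⟩ := mem_Icc.1 h2
    refine mem_Icc.2 ⟨Nat.div_pos (Nat.le_of_dvd (by omega) h3) hd, (Nat.div_le_self _ _).trans h5⟩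
  have hH : ∑ k ∈ Icc 1 N, (1 : ℝ) / k ≤ 1 + Real.log N := by
    have h2 := harmonic_le_one_add_log N
    rw [harmonic_eq_sum_Icc] at h2
    push_cast at h2
    simpa only [one_div] using h2
  rw [sum_congr rfl h1, ← mul_sum]
  calc 1 / (d : ℝ) * ∑ m ∈ (Icc 1 N).filter (fun m => d ∣ m), 1 / ((m / d : ℕ) : ℝ)
      = 1 / (d : ℝ) * ∑ k ∈ ((Icc 1 N).filter (fun m => d ∣ m)).image (fun m => m / d), 1 / (k : ℝ) := by
        rw [sum_image hinj]
    _ ≤ 1 / (d : ℝ) * ∑ k ∈ Icc 1 N, 1 / (k : ℝ) := by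
        apply mul_le_mul_of_nonneg_left _ (by positivity)
        exact sum_le_sum_of_subset_of_nonneg hsub fun _ _ _ => by positivity
    _ ≤ 1 / (d : ℝ) * (1 + Real.log N) := mul_le_mul_of_nonneg_left hH (by positivity)
    _ = (1 + Real.log N) / d := by ring

theorem mean_le (z : ℕ) (x : ℕ → ℝ) (hx : ∀ p, 0 ≤ x p) (N : ℕ) (hN : 1 ≤ N) :
    ∑ m ∈ Icc 1 N, GG z x m / m ≤ (1 + Real.log N) * ∏ p ∈ Pz z, (1 + 2 * x p / p) := by
  set A : ℕ → ℝ := fun p => 1 + x p / ((p : ℝ) - 1) with hA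
  set B : ℕ → ℝ := fun p => x p - x p / ((p : ℝ) - 1) with hB
  have hA0 : ∀ p ∈ Pz z, 0 ≤ A p := by
    intro p hp
    have h2 := two_le_of_mem_Pz hp
    have h3 := hx p
    have h4 : 0 ≤ x p / ((p : ℝ) - 1) := div_nonneg h3 (by linarith)
    simp only [hA]
    linarith
  have hB0 : ∀ p ∈ Pz z, 0 ≤ B p := by
    intro p hp
    have h2 := two_le_of_mem_Pz hp
    have h3 := hx p
    have h4 : x p / ((p : ℝ) - 1) ≤ x p := div_le_self h3 (by linarith)
    simp only [hB]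
    linarith
  -- the expansion
  have hG : ∀ m, GG z x m = ∑ t ∈ (Pz z).powerset,
      (if (∏ p ∈ t, p) ∣ m then ∏ p ∈ t, B p else 0) * ∏ p ∈ Pz z \ t, A p := by
    intro m
    have h2 : GG z x m = ∏ p ∈ Pz z, ((if p ∣ m then B p else 0) + A p) := by
      unfold GG
      refine prod_congr rfl fun p _ => ?_
      simp only [hA, hB]
      split_ifs <;> ring
    rw [h2, prod_add]
    refine sum_congr rfl fun t ht => ?_
    congr 1
    rw [prod_ite_zero]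
    have h3 : (∀ p ∈ t, p ∣ m) ↔ (∏ p ∈ t, p) ∣ m := by
      constructor
      · intro h
        exact prod_primes_dvd m (fun p hp => (mem_Pz.1 (mem_powerset.1 ht hp)).2.prime) h
      · intro h p hp
        exact (dvd_prod_of_mem _ hp).trans h
    simp only [h3]
  have hsum : ∑ m ∈ Icc 1 N, GG z x m / m = ∑ t ∈ (Pz z).powerset,
      ((∏ p ∈ t, B p) * ∏ p ∈ Pz z \ t, A p) *
        ∑ m ∈ (Icc 1 N).filter (fun m => (∏ p ∈ t, p) ∣ m), (1 : ℝ) / m := by
    simp only [hG, sum_div]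
    rw [sum_comm]
    refine sum_congr rfl fun t _ => ?_
    rw [sum_filter, mul_sum]
    refine sum_congr rfl fun m _ => ?_
    split_ifs
    · ring
    · simp
  have hpr : ∏ p ∈ Pz z, (1 + 2 * x p / p) = ∑ t ∈ (Pz z).powerset,
      (∏ p ∈ t, B p / p) * ∏ p ∈ Pz z \ t, A p := by
    rw [← prod_add]
    refine prod_congr rfl fun p hp => ?_
    have h2 := two_le_of_mem_Pz hp
    have h3 : (p : ℝ) - 1 ≠ 0 := by
      intro h
      linarith
    have h4 : (p : ℝ) ≠ 0 := by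
      intro h
      linarith
    simp only [hA, hB]
    field_simp
    ring
  rw [hsum, hpr, mul_sum]
  refine sum_le_sum fun t ht => ?_
  have h1 : 0 ≤ (∏ p ∈ t, B p) * ∏ p ∈ Pz z \ t, A p :=
    mul_nonneg (prod_nonneg fun p hp => hB0 p (mem_powerset.1 ht hp))
      (prod_nonneg fun p hp => hA0 p (mem_sdiff.1 hp).1)
  have h2 : 1 ≤ ∏ p ∈ t, p :=
    prod_pos fun p hp => (mem_Pz.1 (mem_powerset.1 ht hp)).2.pos
  calc ((∏ p ∈ t, B p) * ∏ p ∈ Pz z \ t, A p) *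
        ∑ m ∈ (Icc 1 N).filter (fun m => (∏ p ∈ t, p) ∣ m), (1 : ℝ) / m
      ≤ ((∏ p ∈ t, B p) * ∏ p ∈ Pz z \ t, A p) * ((1 + Real.log N) / ((∏ p ∈ t, p : ℕ) : ℝ)) :=
        mul_le_mul_of_nonneg_left (sum_inv_dvd N _ hN h2) h1
    _ = (1 + Real.log N) * ((∏ p ∈ t, B p / p) * ∏ p ∈ Pz z \ t, A p) := by
        rw [prod_div_distrib]
        push_cast
        ring

end Pool.Agent.H31.DD
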