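import Pool.Agent.H31.DD.Defs

/-!
# DD Num: the numerical estimate

`1 + 2 (e^u - 1) / p ≤ e^u` for the primes `p ≤ 61` (`∑ 1 / p = 1.71385..`, `u = 160 / p`); for `p ≥ 67`
(`u ≤ 2.4`) convexity gives `e^u - 1 ≤ 5 u` (`e^(12) < 13^5`), so the factor is at most
`1 + 1600 / p² ≤ exp (1600 / p²)` and `∑_(odd n ≥ 67) 1 / n² ≤ 1 / 132`
(`1 / n² ≤ (1/2) (1 / (n - 1) - 1 / (n + 1))`). Exponent: `318.4 - 274.22 - 12.13 = 32.05`, while
`24 * 10^12 < e^(30.82)`.
-/

set_option autoImplicit false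

namespace Pool.Agent.H31.DD

open Finset

/-- The factor of any prime. -/
private theorem fac_small {p : ℕ} (hp : (2 : ℝ) ≤ p) :
    1 + 2 * (Real.exp (160 / p) - 1) / p ≤ Real.exp (160 / p) := by
  have h1 : (1 : ℝ) ≤ Real.exp (160 / p) := Real.one_le_exp (by positivity)
  have h2 : 2 * (Real.exp (160 / p) - 1) / p ≤ Real.exp (160 / p) - 1 := by
    rw [div_le_iff₀ (by linarith)]
    nlinarith
  linarith

private theorem exp_two_four : Real.exp (12 / 5) ≤ 13 := by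
  have h1 : Real.exp (12 / 5) ^ 5 ≤ 13 ^ 5 := by
    rw [← Real.exp_nat_mul]
    have h2 : ((5 : ℕ) : ℝ) * (12 / 5) = ((12 : ℕ) : ℝ) * 1 := by norm_num
    rw [h2, Real.exp_nat_mul]
    have h3 : Real.exp 1 ≤ 2.7182818286 := Real.exp_one_lt_d9.le
    calc Real.exp 1 ^ 12 ≤ (2.7182818286 : ℝ) ^ 12 := by
          exact pow_le_pow_left₀ (Real.exp_pos _).le h3 12
      _ ≤ 13 ^ 5 := by norm_num
  exact le_of_pow_le_pow_left₀ (by norm_num) (by norm_num) h1

private theorem exp_sub_one_le {u : ℝ} (h0 : 0 ≤ u) (h1 : u ≤ 12 / 5) :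
    Real.exp u - 1 ≤ 5 * u := by
  have h2 := convexOn_exp.2 (Set.mem_univ (12 / 5 : ℝ)) (Set.mem_univ (0 : ℝ))
    (show (0 : ℝ) ≤ u / (12 / 5) by positivity)
    (show (0 : ℝ) ≤ 1 - u / (12 / 5) by
      rw [sub_nonneg, div_le_one (by norm_num)]
      exact h1) (by ring)
  simp only [smul_eq_mul, mul_zero, add_zero, Real.exp_zero, mul_one] at h2
  rw [div_mul_cancel₀ _ (by norm_num : (12 / 5 : ℝ) ≠ 0)] at h2
  have h3 := exp_two_four
  have h4 : u / (12 / 5) * Real.exp (12 / 5) ≤ u / (12 / 5) * 13 :=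
    mul_le_mul_of_nonneg_left h3 (by positivity)
  have h5 : u / (12 / 5) * 13 = 5 * u + u / (12 / 5) := by
    field_simp
    ring
  linarith

/-- The factor of a prime `p ≥ 67`. -/
private theorem fac_large {p : ℕ} (hp : (67 : ℝ) ≤ p) :
    1 + 2 * (Real.exp (160 / p) - 1) / p ≤ Real.exp (1600 * (1 / (p : ℝ) ^ 2)) := by
  have hp0 : (0 : ℝ) < p := by linarith
  have h1 : (160 : ℝ) / p ≤ 12 / 5 := by
    rw [div_le_iff₀ hp0]
    linarith
  have h2 := exp_sub_one_le (by positivity : (0 : ℝ) ≤ 160 / p) h1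
  have h3 : 2 * (Real.exp (160 / p) - 1) / p ≤ 1600 * (1 / (p : ℝ) ^ 2) := by
    rw [div_le_iff₀ hp0]
    calc 2 * (Real.exp (160 / p) - 1) ≤ 2 * (5 * (160 / p)) := by linarith
      _ = 1600 * (1 / (p : ℝ) ^ 2) * p := by
        field_simp
        ring
  have h4 := Real.add_one_le_exp (1600 * (1 / (p : ℝ) ^ 2))
  linarith

private theorem prime_cases {p : ℕ} (hp : p.Prime) (h : 61 < p) : 67 ≤ p := by
  by_contra h1
  push Not at h1
  interval_cases p <;> revert hp <;> norm_num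

private theorem sum_tail (z : ℕ) :
    ∑ p ∈ (Pz z).filter (fun p => ¬ p ≤ 61), (1 : ℝ) / (p : ℝ) ^ 2 ≤ 1 / 132 := by
  set S := (Pz z).filter (fun p => ¬ p ≤ 61) with hS
  have hS' : ∀ p ∈ S, p ≤ z ∧ p = 2 * (p / 2) + 1 ∧ 33 ≤ p / 2 := by
    intro p hp
    rw [hS, mem_filter, mem_Pz, not_le] at hp
    have h1 := prime_cases hp.1.2 hp.2
    have h2 : p % 2 = 1 := by
      rcases hp.1.2.eq_two_or_odd with h | h
      · omega
      · exact h
    omega
  have h1 : ∑ p ∈ S, (1 : ℝ) / (p : ℝ) ^ 2 = ∑ k ∈ S.image (fun p => p / 2),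
      (1 : ℝ) / ((2 * k + 1 : ℕ) : ℝ) ^ 2 := by
    rw [Finset.sum_image]
    · refine Finset.sum_congr rfl fun p hp => ?_
      rw [← (hS' p hp).2.1]
    · intro p hp q hq hpq
      have h2 := (hS' p hp).2.1
      have h3 := (hS' q hq).2.1
      simp only at hpq
      omega
  have h2 : S.image (fun p => p / 2) ⊆ Ico 33 (33 + z) := by
    intro k hk
    obtain ⟨p, hp, rfl⟩ := mem_image.1 hk
    have h3 := hS' p hp
    rw [mem_Ico]
    omega
  rw [h1]
  refine (Finset.sum_le_sum_of_subset_of_nonneg h2 fun k _ _ => by positivity).trans ?_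
  have h3 : ∀ m : ℕ, ∑ k ∈ Ico 33 (33 + m), (1 : ℝ) / ((2 * k + 1 : ℕ) : ℝ) ^ 2 ≤
      1 / 132 - 1 / (4 * ((33 + m : ℕ) : ℝ)) := by
    intro m
    induction m with
    | zero => norm_num
    | succ m ih =>
      rw [← Nat.add_assoc, Finset.sum_Ico_succ_top (by omega)]
      have h4 : (1 : ℝ) / ((2 * (33 + m) + 1 : ℕ) : ℝ) ^ 2 ≤
          1 / (4 * ((33 + m : ℕ) : ℝ)) - 1 / (4 * ((33 + m + 1 : ℕ) : ℝ)) := by
        push_cast
        have h5 : (0 : ℝ) < 33 + (m : ℝ) := by positivity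
        have h6 : (1 : ℝ) / (4 * (33 + (m : ℝ))) - 1 / (4 * (33 + (m : ℝ) + 1)) =
            1 / (4 * (33 + (m : ℝ)) * (33 + (m : ℝ) + 1)) := by
          field_simp
          ring
        rw [h6]
        apply one_div_le_one_div_of_le
        · positivity
        · nlinarith
      linarith
  have h4 := h3 z
  have h5 : (0 : ℝ) ≤ 1 / (4 * ((33 + z : ℕ) : ℝ)) := by positivity
  linarith

private theorem Pz_61 : Pz 61 = {2, 3, 5, 7, 11, 13, 17, 19, 23, 29, 31, 37, 41, 43, 47, 53, 59,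
    61} := by
  decide +kernel

private theorem sum_head (z : ℕ) :
    ∑ p ∈ (Pz z).filter (fun p => p ≤ 61), (160 : ℝ) / (p : ℝ) ≤ 27422 / 100 := by
  have h1 : (Pz z).filter (fun p => p ≤ 61) ⊆ Pz 61 := by
    intro p hp
    rw [mem_filter, mem_Pz] at hp
    exact mem_Pz.2 ⟨hp.2, hp.1.2⟩
  refine (Finset.sum_le_sum_of_subset_of_nonneg h1 fun k _ _ => by positivity).trans ?_
  rw [Pz_61]
  simp
  norm_num

private theorem exp_32 : (24 * 10 ^ 12 : ℝ) ≤ Real.exp 32 := by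
  have h1 : Real.exp 32 = Real.exp 1 ^ 32 := by
    rw [← Real.exp_nat_mul]
    norm_num
  rw [h1]
  have h2 : (2.7 : ℝ) ≤ Real.exp 1 := by
    have := Real.exp_one_gt_d9
    linarith
  calc (24 * 10 ^ 12 : ℝ) ≤ 2.7 ^ 32 := by norm_num
    _ ≤ Real.exp 1 ^ 32 := pow_le_pow_left₀ (by norm_num) h2 32

theorem num_le (z : ℕ) :
    Real.exp (-(160 * (199 / 100))) * ∏ p ∈ Pz z, (1 + 2 * (Real.exp (160 / p) - 1) / p) ≤
      1 / (24 * 10 ^ 12) := by
  have hpos : ∀ p : ℕ, 0 ≤ 1 + 2 * (Real.exp (160 / p) - 1) / (p : ℝ) := by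
    intro p
    have h1 : (1 : ℝ) ≤ Real.exp (160 / p) := Real.one_le_exp (by positivity)
    have h2 : 0 ≤ 2 * (Real.exp (160 / p) - 1) / (p : ℝ) :=
      div_nonneg (by linarith) (Nat.cast_nonneg _)
    linarith
  rw [← Finset.prod_filter_mul_prod_filter_not (Pz z) (fun p => p ≤ 61)]
  have h1 : ∏ p ∈ (Pz z).filter (fun p => p ≤ 61), (1 + 2 * (Real.exp (160 / p) - 1) / (p : ℝ)) ≤
      Real.exp (27422 / 100) := by
    calc _ ≤ ∏ p ∈ (Pz z).filter (fun p => p ≤ 61), Real.exp (160 / p) := by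
          refine Finset.prod_le_prod (fun p _ => hpos p) fun p hp => ?_
          exact fac_small (two_le_of_mem_Pz (mem_filter.1 hp).1)
      _ = Real.exp (∑ p ∈ (Pz z).filter (fun p => p ≤ 61), (160 : ℝ) / (p : ℝ)) :=
          (Real.exp_sum _ _).symm
      _ ≤ _ := Real.exp_le_exp.2 (sum_head z)
  have h2 : ∏ p ∈ (Pz z).filter (fun p => ¬ p ≤ 61),
      (1 + 2 * (Real.exp (160 / p) - 1) / (p : ℝ)) ≤ Real.exp (1600 * (1 / 132)) := by
    calc _ ≤ ∏ p ∈ (Pz z).filter (fun p => ¬ p ≤ 61), Real.exp (1600 * (1 / (p : ℝ) ^ 2)) := by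
          refine Finset.prod_le_prod (fun p _ => hpos p) fun p hp => ?_
          rw [mem_filter, mem_Pz, not_le] at hp
          have h3 := prime_cases hp.1.2 hp.2
          exact fac_large (by exact_mod_cast h3)
      _ = Real.exp (∑ p ∈ (Pz z).filter (fun p => ¬ p ≤ 61), 1600 * (1 / (p : ℝ) ^ 2)) :=
          (Real.exp_sum _ _).symm
      _ ≤ _ := by
          rw [← Finset.mul_sum]
          exact Real.exp_le_exp.2 (mul_le_mul_of_nonneg_left (sum_tail z) (by norm_num))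
  calc _ ≤ Real.exp (-(160 * (199 / 100))) * (Real.exp (27422 / 100) *
        Real.exp (1600 * (1 / 132))) := by
        refine mul_le_mul_of_nonneg_left ?_ (Real.exp_pos _).le
        exact mul_le_mul h1 h2 (Finset.prod_nonneg fun p _ => hpos p) (Real.exp_pos _).le
    _ = Real.exp (-(160 * (199 / 100)) + (27422 / 100 + 1600 * (1 / 132))) := by
        rw [← Real.exp_add, ← Real.exp_add]
    _ ≤ Real.exp (-32) := Real.exp_le_exp.2 (by norm_num)
    _ = 1 / Real.exp 32 := by rw [Real.exp_neg, one_div]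
    _ ≤ _ := one_div_le_one_div_of_le (by norm_num) exp_32

end Pool.Agent.H31.DD
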